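import Pool.Agent.Work.MP_34eaa2_al.Dynamics

/-!
# A hyperbolic element is undistorted in every finitely generated group that centralises it
-/

open Topology Filter

namespace Pool.Agent.Work.MP_34eaa2_al

variable {Γ : Type*} [Group Γ] {X : Type*} [TopologicalSpace X]

theorem fix_of_commute [T2Space X] (ρ : Γ →* (X ≃ₜ X)) {z s : Γ} {α β x₀ : X}
    (h : IsHyperbolicAt (ρ z) α β) (hx₀ : x₀ ≠ α) (hx₀' : x₀ ≠ β) (hs : Commute z s) :
    ρ s α = α ∧ ρ s β = β := by
  have key : ∀ {z s : Γ} {α β : X}, IsHyperbolicAt (ρ z) α β → x₀ ≠ α → x₀ ≠ β →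
      Commute z s → ρ s β = β := by
    intro z s α β h hx₀ hx₀' hs
    have h1 := h.conj (ρ s)
    have h2 : ρ s * ρ z * (ρ s)⁻¹ = ρ z := by
      rw [← map_mul, ← map_inv, ← map_mul, ← hs.eq]
      congr 1
      group
    rw [h2] at h1
    have h3 : ρ s α = α ∨ ρ s α = β := (h.fixed _).1 h1.fix_left
    have h4 : x₀ ≠ ρ s α := by
      rcases h3 with h3 | h3 <;> rw [h3] <;> assumption
    exact h1.right_unique h h4 hx₀
  refine ⟨?_, key h hx₀ hx₀' hs⟩
  have hinv : IsHyperbolicAt (ρ z⁻¹) β α := by rw [map_inv]; exact h.inv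
  exact key hinv hx₀' hx₀ hs.inv_left

theorem undistorted_of_hyperbolic [T2Space X] (ρ : Γ →* (X ≃ₜ X)) {z : Γ} {α β x₀ : X}
    (h : IsHyperbolicAt (ρ z) α β) (hx₀ : x₀ ≠ α) (hx₀' : x₀ ≠ β) (S : Finset Γ)
    (hS : ∀ s ∈ S, Commute z s) :
    ∃ C : ℕ, ∀ l : List Γ, (∀ s ∈ l, s ∈ S ∨ s⁻¹ ∈ S) → ∀ n : ℕ, l.prod = z ^ n →
      n ≤ C * l.length := by
  classical
  have hS' : ∀ s, s ∈ S ∨ s⁻¹ ∈ S → Commute z s := by
    rintro s (hs | hs)
    · exact hS s hs
    · simpa using (hS _ hs).inv_right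
  obtain ⟨A₀, B₀, hA₀, hB₀, hαA, hβB, hdisj⟩ := t2_separation h.ne
  have hBU : B₀ ⊆ A₀ᶜ := fun x hx hx' => Set.disjoint_left.1 hdisj hx' hx
  have hUcl : IsClosed A₀ᶜ := hA₀.isClosed_compl
  -- the neighbourhood of `β` that every generator maps into `B₀`
  have hB' : (⋂ s ∈ S, (ρ s) ⁻¹' B₀) ∩ (⋂ s ∈ S, (ρ s⁻¹) ⁻¹' B₀) ∈ 𝓝 β := by
    refine inter_mem ?_ ?_
    · refine (Filter.biInter_finset_mem S).2 fun s hs => ?_
      refine (ρ s).continuous.continuousAt.preimage_mem_nhds ?_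
      rw [(fix_of_commute ρ h hx₀ hx₀' (hS s hs)).2]
      exact hB₀.mem_nhds hβB
    · refine (Filter.biInter_finset_mem S).2 fun s hs => ?_
      refine (ρ s⁻¹).continuous.continuousAt.preimage_mem_nhds ?_
      rw [(fix_of_commute ρ h hx₀ hx₀' (hS s hs).inv_right).2]
      exact hB₀.mem_nhds hβB
  obtain ⟨N, -, hN⟩ := h.dynamics A₀ (hA₀.mem_nhds hαA) _ hB'
  -- every generator times a fixed power of `z` maps `U` into itself
  have hgen : ∀ s, s ∈ S ∨ s⁻¹ ∈ S → ∀ x ∈ A₀ᶜ, ρ (z ^ (N + 1) * s) x ∈ A₀ᶜ := by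
    intro s hs x hx
    have h1 := (hN (N + 1) (Nat.lt_succ_self N)).1 ⟨x, hx, rfl⟩
    have h2 : ρ (z ^ (N + 1) * s) x = ρ s ((ρ z ^ (N + 1)) x) := by
      rw [((hS' s hs).pow_left (N + 1)).eq, map_mul, map_pow, Homeomorph.mul_apply]
    rw [h2]
    apply hBU
    rcases hs with hs | hs
    · exact Set.mem_iInter₂.1 h1.1 s hs
    · have := Set.mem_iInter₂.1 h1.2 s⁻¹ hs
      simpa using this
  have hlist : ∀ l : List Γ, (∀ s ∈ l, s ∈ S ∨ s⁻¹ ∈ S) → ∀ x ∈ A₀ᶜ,
      ρ (z ^ ((N + 1) * l.length) * l.prod) x ∈ A₀ᶜ := by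
    intro l
    induction l with
    | nil => intro _ x hx; simpa using hx
    | cons s l ih =>
      intro hl x hx
      have h1 := ih (fun t ht => hl t (List.mem_cons_of_mem _ ht)) x hx
      have hs := hl s List.mem_cons_self
      have h2 := hgen s hs _ h1
      have h3 : z ^ ((N + 1) * (s :: l).length) * (s :: l).prod =
          z ^ (N + 1) * s * (z ^ ((N + 1) * l.length) * l.prod) := by
        rw [List.length_cons, List.prod_cons, mul_add, mul_one, add_comm, pow_add, mul_assoc,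
          mul_assoc, ← mul_assoc _ s, ((hS' s hs).pow_left ((N + 1) * l.length)).eq, mul_assoc]
      rw [h3, map_mul, Homeomorph.mul_apply]
      exact h2
  -- negative powers of `z` do not map `U` into itself
  have hneg : ∀ k : ℕ, 0 < k → ¬ ∀ x ∈ A₀ᶜ, ρ (z⁻¹ ^ k) x ∈ A₀ᶜ := by
    intro k hk hcon
    -- a point of `U` different from `β`
    obtain ⟨m, hm⟩ := ((h.tendsto hx₀).eventually (hB₀.mem_nhds hβB)).exists
    set y := (ρ z ^ m) x₀ with hy
    have hyβ : y ≠ β := by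
      intro hyβ
      have h1 : (ρ z ^ m) x₀ = (ρ z ^ m) β := by
        rw [← hy, hyβ]
        have : ∀ j : ℕ, (ρ z ^ j) β = β := by
          intro j
          induction j with
          | zero => rfl
          | succ j ih => rw [pow_succ, Homeomorph.mul_apply, h.fix_right, ih]
        rw [this]
      exact hx₀' ((ρ z ^ m).injective h1)
    have h2 : ∀ j : ℕ, ((ρ z)⁻¹ ^ (k * j)) y ∈ A₀ᶜ := by
      intro j
      induction j with
      | zero => simpa using hBU hm
      | succ j ih =>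
        have h3 := hcon _ ih
        rw [mul_add, mul_one, add_comm, pow_add, Homeomorph.mul_apply]
        rwa [map_pow, map_inv] at h3
    have h3 : Tendsto (fun j : ℕ => ((ρ z)⁻¹ ^ (k * j)) y) atTop (𝓝 α) :=
      (h.tendsto_inv hyβ).comp (tendsto_id.const_mul_atTop' hk)
    have h4 : α ∈ A₀ᶜ := hUcl.mem_of_tendsto h3 (Eventually.of_forall h2)
    exact h4 hαA
  refine ⟨N + 1, fun l hl n hn => ?_⟩
  by_contra hlt
  push Not at hlt
  have hl' : ∀ s ∈ (l.map (·⁻¹)).reverse, s ∈ S ∨ s⁻¹ ∈ S := by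
    intro s hs
    rw [List.mem_reverse, List.mem_map] at hs
    obtain ⟨t, ht, rfl⟩ := hs
    rcases hl t ht with h1 | h1
    · right; simpa using h1
    · left; exact h1
  refine hneg (n - (N + 1) * l.length) (by omega) fun x hx => ?_
  have h1 := hlist _ hl' x hx
  rw [← List.prod_inv_reverse, List.length_reverse, List.length_map, hn] at h1
  have h2 : z ^ ((N + 1) * l.length) * (z ^ n)⁻¹ = z⁻¹ ^ (n - (N + 1) * l.length) := by
    rw [inv_pow, mul_inv_eq_iff_eq_mul, eq_inv_mul_iff_mul_eq, ← pow_add]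
    congr 1
    omega
  rwa [h2] at h1

end Pool.Agent.Work.MP_34eaa2_al
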