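import Pool.Agent.Work.MP_34eaa2_al.Cover

/-!
# Every symplectic matrix has lifts, and the kernel of the covering
-/

open Topology Filter Matrix Set
open scoped ComplexOrder

namespace Pool.Agent.Work.MP_34eaa2_al

variable {n : ℕ}

/-- The covering homomorphism is surjective. -/
theorem proj_surjective : Function.Surjective (USp.proj n) := by
  intro g
  have : ContractibleSpace (Siegel n) := convex_siegel.contractibleSpace ⟨_, (base n).2⟩
  have : LocallyConvexSpace ℝ (Matrix (Fin n) (Fin n) ℂ) :=
    inferInstanceAs (LocallyConvexSpace ℝ (Fin n → Fin n → ℂ))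
  have : LocallyPathConnectedSpace (Siegel n) := convex_siegel.locallyPathConnectedSpace
  have hne : ∀ Z : Siegel n, (den g Z.1).det ≠ 0 := fun Z => (den_isUnit g Z.2).ne_zero
  obtain ⟨f, ⟨-, hf⟩, -⟩ := Complex.isCoveringMapOn_exp.existsUnique_continuousMap_lifts
    (⟨fun Z : Siegel n => (den g Z.1).det, (continuous_den g).matrix_det⟩ : C(Siegel n, ℂ))
    (a₀ := base n) (Complex.exp_log (hne (base n))) hne
  exact ⟨⟨g, f, fun Z => congrFun hf Z⟩, rfl⟩

/-- The central elements `(1, 2 π i m)`. -/
noncomputable def USp.turn (n : ℕ) (m : ℤ) : USp n :=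
  ⟨1, ContinuousMap.const _ (m * (2 * Real.pi * Complex.I)), fun Z => by
    rw [ContinuousMap.const_apply, den_one, Matrix.det_one]
    exact Complex.exp_int_mul_two_pi_mul_I m⟩

/-- The kernel of the covering homomorphism is infinite cyclic, consisting of the
elements `(1, 2 π i m)`. -/
theorem mem_ker_iff (x : USp n) : x ∈ (USp.proj n).ker ↔ ∃ m : ℤ, x = USp.turn n m := by
  constructor
  · intro hx
    have hg : x.g = 1 := hx
    have hexp : ∀ Z, Complex.exp (x.φ Z) = 1 := by
      intro Z
      rw [x.exp_φ, hg, den_one, Matrix.det_one]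
    obtain ⟨m, hm⟩ := Complex.exp_eq_one_iff.1 (hexp (base n))
    refine ⟨m, USp.ext hg ?_⟩
    ext Z
    rw [const_of_exp_one x.φ.continuous hexp Z (base n), hm]
    rfl
  · rintro ⟨m, rfl⟩
    rfl

theorem turn_central (m : ℤ) (x : USp n) : USp.turn n m * x = x * USp.turn n m := by
  refine USp.ext ?_ ?_
  · rw [USp.mul_g, USp.mul_g]
    exact (one_mul _).trans (mul_one _).symm
  · ext Z
    rw [USp.mul_φ, USp.mul_φ]
    have h1 : sact (USp.turn n m).g Z = Z := sact_one Z
    rw [h1, add_comm]
    rfl

theorem turn_zero : USp.turn n 0 = 1 := by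
  refine USp.ext rfl ?_
  ext Z
  simp [USp.turn, USp.one_φ]

theorem turn_add (m k : ℤ) : USp.turn n (m + k) = USp.turn n m * USp.turn n k := by
  refine USp.ext ?_ ?_
  · rw [USp.mul_g]
    exact (mul_one _).symm
  · ext Z
    rw [USp.mul_φ]
    simp only [USp.turn, ContinuousMap.const_apply]
    push_cast
    ring

theorem turn_injective : Function.Injective (USp.turn n) := by
  intro m k h
  have h1 := congrArg (fun x : USp n => x.φ (base n)) h
  simp only [USp.turn, ContinuousMap.const_apply] at h1
  have h2 : (2 * Real.pi * Complex.I : ℂ) ≠ 0 := Complex.two_pi_I_ne_zero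
  exact_mod_cast mul_right_cancel₀ h2 h1

end Pool.Agent.Work.MP_34eaa2_al
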