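import Pool.Agent.Work.MP_34eaa2_al.Cover

/-!
# The argument of the automorphy factor has bounded variation
-/

open Topology Filter Matrix Set
open scoped ComplexOrder

namespace Pool.Agent.Work.MP_34eaa2_al

variable {n : ℕ}

theorem mem_slitPlane_of {r : ℂ} (h : ∀ t : ℝ, 0 ≤ t → t ≤ 1 → (t : ℂ) ≠ r) {t : ℝ}
    (ht : 0 ≤ t) (ht' : t ≤ 1) : 1 - (t : ℂ) / r ∈ Complex.slitPlane := by
  by_contra hcon
  rw [Complex.mem_slitPlane_iff] at hcon
  push Not at hcon
  obtain ⟨h1, h2⟩ := hcon
  have hr : r ≠ 0 := fun hr => h 0 le_rfl zero_le_one (by rw [hr, Complex.ofReal_zero])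
  have h3 : (t : ℂ) / r = (((t : ℂ) / r).re : ℂ) := by
    apply Complex.ext
    · rw [Complex.ofReal_re]
    · rw [Complex.ofReal_im]
      rw [Complex.sub_im, Complex.one_im] at h2
      linarith
  set x := ((t : ℂ) / r).re with hx
  have h4 : 1 ≤ x := by
    rw [Complex.sub_re, Complex.one_re] at h1
    linarith
  have h5 : (t : ℂ) = x * r := by
    rw [← h3, div_mul_cancel₀ _ hr]
  have hx0 : (x : ℂ) ≠ 0 := by
    rw [Complex.ofReal_ne_zero]
    linarith
  refine h (t / x) (by positivity) ?_ ?_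
  · rw [div_le_one (by linarith)]
    linarith
  · rw [Complex.ofReal_div, h5, mul_div_cancel_left₀ _ hx0]

theorem exists_log (R : Multiset ℂ) (h : ∀ r ∈ R, ∀ t : ℝ, 0 ≤ t → t ≤ 1 → (t : ℂ) ≠ r) :
    ∃ L : ℝ → ℂ, ContinuousOn L (Icc 0 1) ∧ L 0 = 0 ∧
      (∀ t ∈ Icc (0 : ℝ) 1, Complex.exp (L t) = (R.map fun r => 1 - (t : ℂ) / r).prod) ∧
      ∀ t, |(L t).im| ≤ R.card * Real.pi := by
  induction R using Multiset.induction with
  | empty =>
    refine ⟨fun _ => 0, continuousOn_const, rfl, fun t _ => ?_, fun t => ?_⟩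
    · simp
    · simp
  | cons r R ih =>
    obtain ⟨L, hL, hL0, hLe, hLb⟩ := ih fun s hs => h s (Multiset.mem_cons_of_mem hs)
    have hr := h r (Multiset.mem_cons_self r R)
    refine ⟨fun t => Complex.log (1 - (t : ℂ) / r) + L t, ?_, ?_, fun t ht => ?_, fun t => ?_⟩
    · refine ContinuousOn.add (ContinuousOn.clog ?_ ?_) hL
      · exact (continuous_const.sub (Complex.continuous_ofReal.div_const r)).continuousOn
      · intro t ht
        exact mem_slitPlane_of hr ht.1 ht.2
    · simp [hL0]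
    · rw [Complex.exp_add, hLe t ht, Multiset.map_cons, Multiset.prod_cons,
        Complex.exp_log (Complex.slitPlane_ne_zero (mem_slitPlane_of hr ht.1 ht.2))]
    · rw [Complex.add_im, Multiset.card_cons]
      push_cast
      have h1 : |(Complex.log (1 - (t : ℂ) / r)).im| ≤ Real.pi := by
        rw [Complex.log_im]
        exact Complex.abs_arg_le_pi _
      have h2 := hLb t
      calc _ ≤ |(Complex.log (1 - (t : ℂ) / r)).im| + |(L t).im| := abs_add_le _ _
        _ ≤ Real.pi + R.card * Real.pi := add_le_add h1 h2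
        _ = _ := by ring

theorem exists_log_det (M₀ M₁ : Matrix (Fin n) (Fin n) ℂ)
    (h : ∀ t : ℝ, 0 ≤ t → t ≤ 1 → (M₀ + (t : ℂ) • M₁).det ≠ 0) :
    ∃ L : ℝ → ℂ, ContinuousOn L (Icc 0 1) ∧ L 0 = 0 ∧
      (∀ t ∈ Icc (0 : ℝ) 1, M₀.det * Complex.exp (L t) = (M₀ + (t : ℂ) • M₁).det) ∧
      ∀ t, |(L t).im| ≤ n * Real.pi := by
  set p : Polynomial ℂ := ((Polynomial.X : Polynomial ℂ) • M₁.map Polynomial.C +
    M₀.map Polynomial.C).det with hp
  have hdeg : p.natDegree ≤ n := by
    have := Polynomial.natDegree_det_X_add_C_le M₁ M₀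
    rwa [Fintype.card_fin] at this
  have heval : ∀ t : ℂ, p.eval t = (M₀ + t • M₁).det := by
    intro t
    rw [hp, ← Polynomial.coe_evalRingHom, RingHom.map_det]
    congr 1
    ext i j
    simp only [RingHom.mapMatrix_apply, Matrix.map_apply, Matrix.add_apply, Matrix.smul_apply,
      smul_eq_mul, Polynomial.coe_evalRingHom, Polynomial.eval_add, Polynomial.eval_mul,
      Polynomial.eval_X, Polynomial.eval_C]
    ring
  have hsplit : p.Splits := IsAlgClosed.splits p
  have hprod : ∀ t : ℂ, p.eval t = p.leadingCoeff * (p.roots.map fun r => t - r).prod :=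
    fun t => hsplit.eval_eq_prod_roots t
  have hroots : ∀ r ∈ p.roots, ∀ t : ℝ, 0 ≤ t → t ≤ 1 → (t : ℂ) ≠ r := by
    intro r hr t ht ht' htr
    refine h t ht ht' ?_
    rw [← heval, htr]
    exact Polynomial.isRoot_of_mem_roots hr
  obtain ⟨L, hL, hL0, hLe, hLb⟩ := exists_log p.roots hroots
  refine ⟨L, hL, hL0, fun t ht => ?_, fun t => (hLb t).trans ?_⟩
  · rw [hLe t ht, ← heval, hprod]
    have h0 : M₀.det = p.leadingCoeff * (p.roots.map fun r => (0 : ℂ) - r).prod := by
      rw [← hprod, heval, zero_smul, add_zero]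
    rw [h0, mul_assoc, ← Multiset.prod_map_mul]
    congr 2
    apply Multiset.map_congr rfl
    intro r hr
    have hr0 : r ≠ 0 := fun hr0 => hroots r hr 0 le_rfl zero_le_one (by
      rw [hr0, Complex.ofReal_zero])
    field_simp
    ring
  · refine mul_le_mul_of_nonneg_right ?_ Real.pi_pos.le
    exact_mod_cast (Polynomial.card_roots' p).trans hdeg

theorem den_segment (g : symplecticGroup (Fin n) ℝ) (Z W : Matrix (Fin n) (Fin n) ℂ) (t : ℝ) :
    den g ((1 - t) • Z + t • W) = den g Z + (t : ℂ) • ((cplx g).toBlocks₂₁ * (W - Z)) := by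
  unfold den
  have h1 : (1 - t) • Z + t • W = Z + (t : ℂ) • (W - Z) := by
    have h2 : ∀ M : Matrix (Fin n) (Fin n) ℂ, (t : ℂ) • M = t • M := fun M => by
      ext i j
      simp
    rw [h2, sub_smul, one_smul, smul_sub]
    abel
  rw [h1, mul_add, Matrix.mul_smul]
  abel

/-- The imaginary part of the logarithm of the automorphy factor varies by at most `n π`. -/
theorem variation (x : USp n) (Z W : Siegel n) : |(x.φ W).im - (x.φ Z).im| ≤ n * Real.pi := by
  have hseg : ∀ t : ℝ, 0 ≤ t → t ≤ 1 → (1 - t) • Z.1 + t • W.1 ∈ Siegel n := fun t ht ht' =>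
    convex_siegel Z.2 W.2 (by linarith) ht (by ring)
  obtain ⟨L, hL, hL0, hLe, hLb⟩ := exists_log_det (den x.g Z.1)
    ((cplx x.g).toBlocks₂₁ * (W.1 - Z.1)) (by
      intro t ht ht'
      rw [← den_segment]
      exact (den_isUnit x.g (hseg t ht ht')).ne_zero)
  let path : Icc (0 : ℝ) 1 → Siegel n := fun t => ⟨_, hseg t.1 t.2.1 t.2.2⟩
  have hpath : Continuous path := by
    refine Continuous.subtype_mk ?_ _
    exact ((continuous_const.sub continuous_subtype_val).smul continuous_const).add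
      (continuous_subtype_val.smul continuous_const)
  let D : Icc (0 : ℝ) 1 → ℂ := fun t => x.φ (path t) - x.φ Z - L t.1
  have hD : Continuous D :=
    ((x.φ.continuous.comp hpath).sub continuous_const).sub
      (continuousOn_iff_continuous_domRestrict.1 hL)
  have hexp : ∀ t, Complex.exp (D t) = 1 := by
    intro t
    have h0 : (den x.g Z.1).det ≠ 0 := (den_isUnit x.g Z.2).ne_zero
    have h1 : Complex.exp (L t.1) ≠ 0 := Complex.exp_ne_zero _
    simp only [D]
    rw [Complex.exp_sub, Complex.exp_sub, x.exp_φ, x.exp_φ]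
    change (den x.g ((1 - t.1) • Z.1 + t.1 • W.1)).det / _ / _ = 1
    rw [den_segment, ← hLe t.1 t.2]
    field_simp
  have h01 := const_of_exp_one hD hexp ⟨1, by norm_num⟩ ⟨0, by norm_num⟩
  have hp0 : path ⟨0, by norm_num⟩ = Z := Subtype.ext (by simp [path])
  have hp1 : path ⟨1, by norm_num⟩ = W := Subtype.ext (by simp [path])
  simp only [D] at h01
  rw [hp0, hp1, hL0, sub_self, sub_zero] at h01
  have h2 : x.φ W - x.φ Z = L 1 := by
    rw [sub_eq_zero] at h01
    exact h01
  rw [← Complex.sub_im, h2]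
  exact hLb 1

end Pool.Agent.Work.MP_34eaa2_al
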