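import Pool.Agent.Work.MP_34eaa2_al.Siegel

/-!
# The universal covering group of `Sp(2n, ℝ)`
-/

open Topology Filter Matrix
open scoped ComplexOrder

namespace Pool.Agent.Work.MP_34eaa2_al

variable {n : ℕ}

theorem continuous_num (g : symplecticGroup (Fin n) ℝ) :
    Continuous fun Z : Siegel n => num g Z.1 := by
  unfold num
  exact (continuous_const.matrix_mul continuous_subtype_val).add continuous_const

theorem continuous_den (g : symplecticGroup (Fin n) ℝ) :
    Continuous fun Z : Siegel n => den g Z.1 := by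
  unfold den
  exact (continuous_const.matrix_mul continuous_subtype_val).add continuous_const

/-- The action of `Sp(2n, ℝ)` on the Siegel upper half space, `Z ↦ (A Z + B) (C Z + D)⁻¹`. -/
noncomputable def sact (g : symplecticGroup (Fin n) ℝ) : C(Siegel n, Siegel n) where
  toFun Z := ⟨act' g Z.1, act'_mem g Z.2⟩
  continuous_toFun := by
    refine Continuous.subtype_mk ?_ _
    have h1 : (fun Z : Siegel n => act' g Z.1) = fun Z : Siegel n =>
        num g Z.1 * (((den g Z.1).det)⁻¹ • (den g Z.1).adjugate) := by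
      funext Z
      unfold act'
      rw [Matrix.inv_def, Ring.inverse_eq_inv']
    rw [h1]
    refine (continuous_num g).matrix_mul ?_
    refine Continuous.smul (Continuous.inv₀ (continuous_den g).matrix_det fun Z => ?_)
      (continuous_den g).matrix_adjugate
    exact (den_isUnit g Z.2).ne_zero

theorem sact_one (Z : Siegel n) : sact 1 Z = Z := Subtype.ext (act'_one Z.1)

theorem sact_mul (g h : symplecticGroup (Fin n) ℝ) (Z : Siegel n) :
    sact (g * h) Z = sact g (sact h Z) := Subtype.ext (act'_mul g h Z.2)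

/-- The group of pairs `(g, φ)` where `g` is a real symplectic matrix with blocks `A, B, C, D`
and `φ` is a continuous function on the Siegel upper half space with
`exp (φ Z) = det (C Z + D)`: the universal covering group of `Sp(2n, ℝ)`. The product is
`(g, φ) (h, ψ) = (g h, φ ∘ h + ψ)`. -/
@[ext]
structure USp (n : ℕ) where
  /-- the symplectic matrix -/
  g : symplecticGroup (Fin n) ℝ
  /-- the logarithm of the automorphy factor -/
  φ : C(Siegel n, ℂ)
  exp_φ : ∀ Z : Siegel n, Complex.exp (φ Z) = (den g Z.1).det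

noncomputable instance : Mul (USp n) where
  mul x y := ⟨x.g * y.g, x.φ.comp (sact y.g) + y.φ, fun Z => by
    rw [ContinuousMap.add_apply, ContinuousMap.comp_apply, Complex.exp_add, x.exp_φ, y.exp_φ,
      den_mul x.g y.g Z.2, Matrix.det_mul]
    rfl⟩

noncomputable instance : One (USp n) where
  one := ⟨1, 0, fun Z => by rw [den_one, Matrix.det_one]; exact Complex.exp_zero⟩

noncomputable instance : Inv (USp n) where
  inv x := ⟨x.g⁻¹, -(x.φ.comp (sact x.g⁻¹)), fun Z => by
    rw [ContinuousMap.neg_apply, ContinuousMap.comp_apply, Complex.exp_neg, x.exp_φ]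
    have h1 := den_mul x.g x.g⁻¹ Z.2
    rw [mul_inv_cancel, den_one] at h1
    have h2 := congrArg Matrix.det h1
    rw [Matrix.det_one, Matrix.det_mul] at h2
    exact inv_eq_of_mul_eq_one_right h2.symm⟩

theorem USp.mul_g (x y : USp n) : (x * y).g = x.g * y.g := rfl

theorem USp.mul_φ (x y : USp n) (Z : Siegel n) : (x * y).φ Z = x.φ (sact y.g Z) + y.φ Z := rfl

theorem USp.one_g : (1 : USp n).g = 1 := rfl

theorem USp.one_φ : (1 : USp n).φ = 0 := rfl

theorem USp.inv_g (x : USp n) : (x⁻¹).g = x.g⁻¹ := rfl

theorem USp.inv_φ (x : USp n) (Z : Siegel n) : (x⁻¹).φ Z = -(x.φ (sact x.g⁻¹ Z)) := rfl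

noncomputable instance : Group (USp n) where
  mul_assoc x y w := by
    refine USp.ext (mul_assoc _ _ _) ?_
    ext Z
    rw [USp.mul_φ, USp.mul_φ, USp.mul_φ, USp.mul_φ, USp.mul_g, sact_mul, add_assoc]
  one_mul x := by
    refine USp.ext (one_mul _) ?_
    ext Z
    rw [USp.mul_φ, USp.one_φ, ContinuousMap.zero_apply, zero_add]
  mul_one x := by
    refine USp.ext (mul_one _) ?_
    ext Z
    rw [USp.mul_φ, USp.one_g, USp.one_φ, sact_one, ContinuousMap.zero_apply, add_zero]
  inv_mul_cancel x := by
    refine USp.ext (inv_mul_cancel _) ?_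
    ext Z
    rw [USp.mul_φ, USp.inv_φ, ← sact_mul, inv_mul_cancel, sact_one, neg_add_cancel]
    rfl

/-- The covering homomorphism. -/
noncomputable def USp.proj (n : ℕ) : USp n →* symplecticGroup (Fin n) ℝ where
  toFun x := x.g
  map_one' := rfl
  map_mul' _ _ := rfl

/-- A continuous function on a preconnected space with exponential `1` is constant. -/
theorem const_of_exp_one {T : Type*} [TopologicalSpace T] [PreconnectedSpace T] {D : T → ℂ}
    (hD : Continuous D) (h : ∀ t, Complex.exp (D t) = 1) (s t : T) : D s = D t := by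
  have h1 : ∀ t, ∃ m : ℤ, D t = m * (2 * Real.pi * Complex.I) := fun t =>
    Complex.exp_eq_one_iff.1 (h t)
  choose m hm using h1
  have hcont : Continuous fun t => ((m t : ℤ) : ℝ) := by
    have h2 : (fun t => ((m t : ℤ) : ℝ)) = fun t => (D t).im / (2 * Real.pi) := by
      funext t
      rw [hm t]
      simp
    rw [h2]
    exact (Complex.continuous_im.comp hD).div_const _
  have hm' : Continuous m := Int.isClosedEmbedding_coe_real.isInducing.continuous_iff.2 hcont
  have h3 : m s = m t := PreconnectedSpace.constant inferInstance hm'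
  rw [hm s, hm t, h3]

theorem convex_siegel : Convex ℝ (Siegel n) := by
  intro Z hZ W hW a b ha hb hab
  refine ⟨?_, ?_⟩
  · rw [Matrix.transpose_add, Matrix.transpose_smul, Matrix.transpose_smul, hZ.1, hW.1]
  · have h1 : (2 * Complex.I)⁻¹ • (a • Z + b • W - (a • Z + b • W)ᴴ) =
        a • ((2 * Complex.I)⁻¹ • (Z - Zᴴ)) + b • ((2 * Complex.I)⁻¹ • (W - Wᴴ)) := by
      rw [Matrix.conjTranspose_add, Matrix.conjTranspose_smul, Matrix.conjTranspose_smul,
        star_trivial, star_trivial, smul_comm a ((2 * Complex.I)⁻¹) (Z - Zᴴ),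
        smul_comm b ((2 * Complex.I)⁻¹) (W - Wᴴ), ← smul_add]
      congr 1
      rw [smul_sub, smul_sub]
      abel
    rw [h1]
    rcases ha.eq_or_lt with rfl | ha
    · rw [zero_smul, zero_add]
      have : b = 1 := by linarith
      rw [this, one_smul]
      exact hW.2
    rcases hb.eq_or_lt with rfl | hb
    · rw [zero_smul, add_zero]
      have : a = 1 := by linarith
      rw [this, one_smul]
      exact hZ.2
    have hsm : ∀ {c : ℝ} {M : Matrix (Fin n) (Fin n) ℂ}, 0 < c → M.PosDef → (c • M).PosDef := by
      intro c M hc hM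
      exact hM.smul hc
    exact (hsm ha hZ.2).add (hsm hb hW.2)

/-- The base point `i`. -/
noncomputable def base (n : ℕ) : Siegel n := ⟨Complex.I • 1, by
  refine ⟨?_, ?_⟩
  · rw [Matrix.transpose_smul, Matrix.transpose_one]
  · have h1 : (2 * Complex.I)⁻¹ • (Complex.I • (1 : Matrix (Fin n) (Fin n) ℂ) -
        (Complex.I • (1 : Matrix (Fin n) (Fin n) ℂ))ᴴ) = 1 := by
      rw [Matrix.conjTranspose_smul, Matrix.conjTranspose_one, ← sub_smul, smul_smul]
      have h2 : (2 * Complex.I)⁻¹ * (Complex.I - star Complex.I) = 1 := by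
        rw [Complex.star_def, Complex.conj_I, sub_neg_eq_add, ← two_mul]
        exact inv_mul_cancel₀ (by simp)
      rw [h2, one_smul]
    rw [h1]
    exact Matrix.PosDef.one⟩

instance : PreconnectedSpace (Siegel n) :=
  isPreconnected_iff_preconnectedSpace.1 convex_siegel.isPreconnected

end Pool.Agent.Work.MP_34eaa2_al
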