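import Mathlib

/-!
# MP_34eaa2_al: definitions

Hyperbolic homeomorphisms of compact spaces and group elements that act hyperbolically.
-/

open Topology Filter

namespace Pool.Agent.Work.MP_34eaa2_al

/-- `f` is a hyperbolic homeomorphism with repelling fixed point `α` and attracting fixed
point `β`: the fixed points are exactly the two different points `α` and `β`, and for all
neighbourhoods `A` of `α` and `B` of `β` there is a positive integer `N` such that
`f ^ n (X ∖ A) ⊆ B` and `f ^ (-n) (X ∖ B) ⊆ A` for all `n > N`. -/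
structure IsHyperbolicAt {X : Type*} [TopologicalSpace X] (f : X ≃ₜ X) (α β : X) : Prop where
  ne : α ≠ β
  fixed : ∀ x, f x = x ↔ x = α ∨ x = β
  dynamics : ∀ A ∈ 𝓝 α, ∀ B ∈ 𝓝 β, ∃ N : ℕ, 0 < N ∧ ∀ n > N,
    (⇑(f ^ n)) '' Aᶜ ⊆ B ∧ (⇑(f⁻¹ ^ n)) '' Bᶜ ⊆ A

/-- A homeomorphism is hyperbolic if it is hyperbolic with respect to some ordered pair of
points. -/
def IsHyperbolic {X : Type*} [TopologicalSpace X] (f : X ≃ₜ X) : Prop :=
  ∃ α β : X, IsHyperbolicAt f α β

/-- `ActsHyperbolically g`: the group `Γ` acts by homeomorphisms on some compact metrizable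
space with more than three points in such a way that `g` acts as a hyperbolic
homeomorphism. -/
def ActsHyperbolically {Γ : Type*} [Group Γ] (g : Γ) : Prop :=
  ∃ (X : Type) (_ : TopologicalSpace X) (_ : CompactSpace X)
    (_ : TopologicalSpace.MetrizableSpace X) (ρ : Γ →* (X ≃ₜ X)),
    3 < ENat.card X ∧ IsHyperbolic (ρ g)

end Pool.Agent.Work.MP_34eaa2_al
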