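import Pool.Agent.Work.MP_34eaa2_al.Defs

/-!
# Elementary facts on hyperbolic homeomorphisms
-/

open Topology Filter

namespace Pool.Agent.Work.MP_34eaa2_al

namespace IsHyperbolicAt

variable {X : Type*} [TopologicalSpace X] {f g : X ≃ₜ X} {α β : X}

theorem fix_left (h : IsHyperbolicAt f α β) : f α = α := (h.fixed α).2 (Or.inl rfl)

theorem fix_right (h : IsHyperbolicAt f α β) : f β = β := (h.fixed β).2 (Or.inr rfl)

/-- The inverse. -/
theorem inv (h : IsHyperbolicAt f α β) : IsHyperbolicAt f⁻¹ β α := by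
  refine ⟨h.ne.symm, fun x => ?_, fun A hA B hB => ?_⟩
  · rw [or_comm, ← h.fixed x]
    constructor
    · intro hx
      calc f x = f (f⁻¹ x) := by rw [hx]
        _ = x := by rw [← Homeomorph.mul_apply, mul_inv_cancel]; rfl
    · intro hx
      calc f⁻¹ x = f⁻¹ (f x) := by rw [hx]
        _ = x := by rw [← Homeomorph.mul_apply, inv_mul_cancel]; rfl
  · obtain ⟨N, hN, hn⟩ := h.dynamics B hB A hA
    exact ⟨N, hN, fun n hnN => ⟨(hn n hnN).2, by simpa using (hn n hnN).1⟩⟩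

theorem tendsto [T1Space X] (h : IsHyperbolicAt f α β) {x : X} (hx : x ≠ α) :
    Tendsto (fun n : ℕ => (f ^ n) x) atTop (𝓝 β) := by
  intro B hB
  obtain ⟨N, -, hn⟩ := h.dynamics {x}ᶜ (compl_singleton_mem_nhds hx.symm) B hB
  refine mem_atTop_sets.2 ⟨N + 1, fun n hnN => (hn n hnN).1 ⟨x, by simp, rfl⟩⟩

theorem tendsto_inv [T1Space X] (h : IsHyperbolicAt f α β) {x : X} (hx : x ≠ β) :
    Tendsto (fun n : ℕ => (f⁻¹ ^ n) x) atTop (𝓝 α) :=
  h.inv.tendsto hx

/-- Conjugation. -/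
theorem conj (h : IsHyperbolicAt f α β) (g : X ≃ₜ X) :
    IsHyperbolicAt (g * f * g⁻¹) (g α) (g β) := by
  have hginv : ∀ x, g (g⁻¹ x) = x := fun x => by
    rw [← Homeomorph.mul_apply, mul_inv_cancel]; rfl
  have hinvg : ∀ x, g⁻¹ (g x) = x := fun x => by
    rw [← Homeomorph.mul_apply, inv_mul_cancel]; rfl
  refine ⟨fun hh => h.ne (g.injective hh), fun x => ?_, fun A hA B hB => ?_⟩
  · have h1 : (g * f * g⁻¹) x = g (f (g⁻¹ x)) := rfl
    rw [h1]
    have h2 := h.fixed (g⁻¹ x)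
    constructor
    · intro hx
      have h3 : f (g⁻¹ x) = g⁻¹ x := by
        apply g.injective
        rw [hx, hginv]
      rcases h2.1 h3 with h4 | h4
      · left; rw [← h4, hginv]
      · right; rw [← h4, hginv]
    · rintro (rfl | rfl)
      · rw [hinvg, h.fix_left]
      · rw [hinvg, h.fix_right]
  · have hA' : g ⁻¹' A ∈ 𝓝 α := g.continuous.continuousAt.preimage_mem_nhds hA
    have hB' : g ⁻¹' B ∈ 𝓝 β := g.continuous.continuousAt.preimage_mem_nhds hB
    obtain ⟨N, hN, hn⟩ := h.dynamics _ hA' _ hB'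
    refine ⟨N, hN, fun n hnN => ⟨?_, ?_⟩⟩
    · rintro _ ⟨x, hx, rfl⟩
      rw [conj_pow]
      have h1 : (g * f ^ n * g⁻¹) x = g ((f ^ n) (g⁻¹ x)) := rfl
      rw [h1]
      apply (hn n hnN).1
      refine ⟨g⁻¹ x, ?_, rfl⟩
      simpa [hginv] using hx
    · rintro _ ⟨x, hx, rfl⟩
      have h0 : (g * f * g⁻¹)⁻¹ = g * f⁻¹ * g⁻¹ := by group
      rw [h0, conj_pow]
      have h1 : (g * f⁻¹ ^ n * g⁻¹) x = g ((f⁻¹ ^ n) (g⁻¹ x)) := rfl
      rw [h1]
      apply (hn n hnN).2
      refine ⟨g⁻¹ x, ?_, rfl⟩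
      simpa [hginv] using hx

/-- Positive powers. -/
theorem pow [T2Space X] (h : IsHyperbolicAt f α β) {k : ℕ} (hk : 0 < k) :
    IsHyperbolicAt (f ^ k) α β := by
  refine ⟨h.ne, fun x => ⟨fun hx => ?_, ?_⟩, fun A hA B hB => ?_⟩
  · by_contra hcon
    push Not at hcon
    have h1 : Tendsto (fun n : ℕ => (f ^ (k * n)) x) atTop (𝓝 β) :=
      (h.tendsto hcon.1).comp (tendsto_id.const_mul_atTop' hk)
    have h2 : ∀ n : ℕ, (f ^ (k * n)) x = x := by
      intro n
      induction n with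
      | zero => rfl
      | succ n ih =>
        rw [mul_add, mul_one, pow_add, Homeomorph.mul_apply, hx, ih]
    simp only [h2] at h1
    exact hcon.2 (tendsto_nhds_unique tendsto_const_nhds h1)
  · have hα : ∀ n : ℕ, (f ^ n) α = α := by
      intro n
      induction n with
      | zero => rfl
      | succ n ih => rw [pow_succ, Homeomorph.mul_apply, h.fix_left, ih]
    have hβ : ∀ n : ℕ, (f ^ n) β = β := by
      intro n
      induction n with
      | zero => rfl
      | succ n ih => rw [pow_succ, Homeomorph.mul_apply, h.fix_right, ih]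
    rintro (rfl | rfl)
    · exact hα k
    · exact hβ k
  · obtain ⟨N, hN, hn⟩ := h.dynamics A hA B hB
    refine ⟨N, hN, fun n hnN => ?_⟩
    have h1 : k * n > N := lt_of_lt_of_le hnN (Nat.le_mul_of_pos_left n hk)
    rw [← pow_mul, ← inv_pow, ← pow_mul]
    exact hn _ h1

/-- A pair of points that is permuted is the pair of fixed points. -/
theorem mem_of_pair [T2Space X] (h : IsHyperbolicAt f α β) {p q : X}
    (hp : f p = p ∨ f p = q) (hq : f q = p ∨ f q = q) : p = α ∨ p = β := by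
  have h2 := h.pow (k := 2) (by norm_num)
  have h3 : (f ^ 2) p = p ∨ (f ^ 1) p = p := by
    rw [pow_two, Homeomorph.mul_apply, pow_one]
    rcases hp with hp | hp
    · right; exact hp
    · rcases hq with hq | hq
      · left; rw [hp, hq]
      · have : p = q := f.injective (by rw [hp, hq])
        right; rw [hp, this]
  rcases h3 with h3 | h3
  · exact (h2.fixed p).1 h3
  · rw [pow_one] at h3
    exact (h.fixed p).1 h3

/-- Two commuting hyperbolic homeomorphisms with the same pair of points have a hyperbolic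
product. -/
theorem mul [T2Space X] (hf : IsHyperbolicAt f α β) (hg : IsHyperbolicAt g α β)
    (hc : Commute f g) : IsHyperbolicAt (f * g) α β := by
  have key : ∀ A ∈ 𝓝 α, ∀ B ∈ 𝓝 β, ∃ N : ℕ, 0 < N ∧ ∀ n > N,
      (⇑((f * g) ^ n)) '' Aᶜ ⊆ B ∧ (⇑((f * g)⁻¹ ^ n)) '' Bᶜ ⊆ A := by
    intro A hA B hB
    obtain ⟨A₀, B₀, hA₀, hB₀, hdisj⟩ := t2_separation_nhds hf.ne
    have hA' : A ∩ A₀ ∈ 𝓝 α := inter_mem hA hA₀
    have hB' : B ∩ B₀ ∈ 𝓝 β := inter_mem hB hB₀
    have hAB : B ∩ B₀ ⊆ (A ∩ A₀)ᶜ := fun x hx hx' =>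
      Set.disjoint_left.1 hdisj hx'.2 hx.2
    have hBA : A ∩ A₀ ⊆ (B ∩ B₀)ᶜ := fun x hx hx' =>
      Set.disjoint_left.1 hdisj hx.2 hx'.2
    obtain ⟨N, hN, hn⟩ := hf.dynamics _ hA' _ hB'
    obtain ⟨M, hM, hm⟩ := hg.dynamics _ hA' _ hB'
    refine ⟨N + M, by omega, fun n hnN => ⟨?_, ?_⟩⟩
    · rintro _ ⟨x, hx, rfl⟩
      have h1 : x ∈ (A ∩ A₀)ᶜ := fun hx' => hx hx'.1
      have h2 : (g ^ n) x ∈ (A ∩ A₀)ᶜ := hAB ((hm n (by omega)).1 ⟨x, h1, rfl⟩)
      rw [hc.mul_pow, Homeomorph.mul_apply]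
      exact ((hn n (by omega)).1 ⟨_, h2, rfl⟩).1
    · rintro _ ⟨x, hx, rfl⟩
      have h1 : x ∈ (B ∩ B₀)ᶜ := fun hx' => hx hx'.1
      have h2 : (g⁻¹ ^ n) x ∈ (B ∩ B₀)ᶜ := hBA ((hm n (by omega)).2 ⟨x, h1, rfl⟩)
      have h3 : (f * g)⁻¹ = f⁻¹ * g⁻¹ := by
        rw [mul_inv_rev]; exact (hc.inv_inv.eq).symm
      rw [h3, hc.inv_inv.mul_pow, Homeomorph.mul_apply]
      exact ((hn n (by omega)).2 ⟨_, h2, rfl⟩).1
  refine ⟨hf.ne, fun x => ⟨fun hx => ?_, ?_⟩, key⟩
  · by_contra hcon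
    push Not at hcon
    have hx' : ∀ n : ℕ, ((f * g) ^ n) x = x := by
      intro n
      induction n with
      | zero => rfl
      | succ n ih => rw [pow_succ, Homeomorph.mul_apply, hx, ih]
    obtain ⟨N, hN, hn⟩ := key {x}ᶜ (compl_singleton_mem_nhds (Ne.symm hcon.1)) {x}ᶜ
      (compl_singleton_mem_nhds (Ne.symm hcon.2))
    have := (hn (N + 1) (by omega)).1 ⟨x, by simp, rfl⟩
    rw [hx'] at this
    exact this rfl
  · rintro (rfl | rfl)
    · rw [Homeomorph.mul_apply, hg.fix_left, hf.fix_left]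
    · rw [Homeomorph.mul_apply, hg.fix_right, hf.fix_right]

/-- The attracting fixed point is unique, as soon as there is a third point. -/
theorem right_unique [T2Space X] (h : IsHyperbolicAt f α β) {α' β' : X}
    (h' : IsHyperbolicAt f α' β') {x : X} (hx : x ≠ α) (hx' : x ≠ α') : β = β' :=
  tendsto_nhds_unique (h.tendsto hx) (h'.tendsto hx')

end IsHyperbolicAt

/-- A point different from three given ones... in a space with more than three points there is
a point different from two given ones. -/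
theorem exists_third {X : Type*} (hX : 3 < ENat.card X) (a b : X) : ∃ x, x ≠ a ∧ x ≠ b := by
  by_contra hcon
  push Not at hcon
  have hsub : (Set.univ : Set X) ⊆ {a, b} := by
    intro x _
    by_cases h : x = a
    · simp [h]
    · simp [hcon x h]
  have h1 : ENat.card X ≤ 2 := by
    rw [← Set.encard_univ]
    refine (Set.encard_le_encard hsub).trans ?_
    refine (Set.encard_insert_le _ _).trans ?_
    rw [Set.encard_singleton]
    norm_num
  exact absurd (hX.trans_le h1) (by decide)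

end Pool.Agent.Work.MP_34eaa2_al
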