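import Pool.Agent.Work.MP_34eaa2_al.Distortion

/-!
# Centres of Heisenberg groups never act hyperbolically
-/

open Topology Filter

namespace Pool.Agent.Work.MP_34eaa2_al

section Group

variable {Γ : Type*} [Group Γ]

theorem heis_aux {x y c : Γ} (hx : Commute c x) (hy : Commute c y) (h : x * y = c * (y * x)) :
    ∀ n : ℕ, x ^ n * y = c ^ n * (y * x ^ n) := by
  intro n
  induction n with
  | zero => simp
  | succ n ih =>
    calc x ^ (n + 1) * y = x ^ n * (x * y) := by rw [pow_succ, mul_assoc]
      _ = x ^ n * c * (y * x) := by rw [h, mul_assoc]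
      _ = c * (x ^ n * y) * x := by rw [← (hx.pow_right n).eq]; simp only [mul_assoc]
      _ = c * (c ^ n * (y * x ^ n)) * x := by rw [ih]
      _ = c ^ (n + 1) * (y * x ^ (n + 1)) := by
          rw [pow_succ' c, pow_succ x]; simp only [mul_assoc]

theorem heis_pow {x y c : Γ} (hx : Commute c x) (hy : Commute c y) (h : x * y = c * (y * x))
    (n m : ℕ) : x ^ n * y ^ m = c ^ (n * m) * (y ^ m * x ^ n) := by
  have h1 := heis_aux hx hy h n
  have hx' : Commute (c ^ n) (x ^ n) := hx.pow_pow n n
  have hy' : Commute (c ^ n) y := hy.pow_left n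
  induction m with
  | zero => simp
  | succ m ih =>
    calc x ^ n * y ^ (m + 1) = x ^ n * y ^ m * y := by rw [pow_succ, mul_assoc]
      _ = c ^ (n * m) * (y ^ m * (x ^ n * y)) := by rw [ih]; simp only [mul_assoc]
      _ = c ^ (n * m) * (y ^ m * c ^ n) * (y * x ^ n) := by rw [h1]; simp only [mul_assoc]
      _ = c ^ (n * m) * (c ^ n * y ^ m) * (y * x ^ n) := by rw [(hy'.pow_right m).eq]
      _ = c ^ (n * (m + 1)) * (y ^ (m + 1) * x ^ n) := by
          rw [mul_add, mul_one, pow_add, pow_succ y]; simp only [mul_assoc]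

end Group

variable {Γ : Type*} [Group Γ] {X : Type*} [TopologicalSpace X]

/-- If `z` commutes with `x` and `y` and `x y = z ^ k y x` with `k > 0`, then `z` never acts as
a hyperbolic homeomorphism. -/
theorem not_hyperbolic_of_heisenberg [T2Space X] (ρ : Γ →* (X ≃ₜ X)) {x y z : Γ} {α β x₀ : X}
    (hx₀ : x₀ ≠ α) (hx₀' : x₀ ≠ β) (hx : Commute z x) (hy : Commute z y) {k : ℕ} (hk : 0 < k)
    (h : x * y = z ^ k * (y * x)) : ¬ IsHyperbolicAt (ρ z) α β := by
  classical
  intro hz
  obtain ⟨C, hC⟩ := undistorted_of_hyperbolic ρ hz hx₀ hx₀' {x, y} (by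
    intro s hs
    rw [Finset.mem_insert, Finset.mem_singleton] at hs
    rcases hs with rfl | rfl <;> assumption)
  have hpow := heis_pow (hx.pow_left k) (hy.pow_left k) h
  have hlist : ∀ n : ℕ, k * (n * n) ≤ C * (4 * n) := by
    intro n
    have := hC (List.replicate n x ++ (List.replicate n y ++ (List.replicate n x⁻¹ ++
      List.replicate n y⁻¹))) (by
        intro s hs
        simp only [List.mem_append, List.mem_replicate] at hs
        rcases hs with hs | hs | hs | hs <;> rw [hs.2] <;> simp) (k * (n * n)) (by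
        simp only [List.prod_append, List.prod_replicate]
        rw [← mul_assoc, hpow n n, ← pow_mul, inv_pow, inv_pow]
        group)
    refine this.trans (le_of_eq ?_)
    simp only [List.length_append, List.length_replicate]
    ring
  have h1 := hlist (4 * C + 1)
  have h2 : C * (4 * (4 * C + 1)) < k * ((4 * C + 1) * (4 * C + 1)) := by
    have : C * (4 * (4 * C + 1)) < (4 * C + 1) * (4 * C + 1) := by nlinarith
    exact this.trans_le (Nat.le_mul_of_pos_left _ hk)
  omega

end Pool.Agent.Work.MP_34eaa2_al
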