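import Mathlib

/-!
# Linear algebra for square-zero integer matrices of small rank
-/

open Matrix

namespace Pool.Agent.Work.MP_34eaa2_al

variable {n : Type*} [Fintype n] [DecidableEq n]

/-- Rational numbers have a common denominator. -/
theorem exists_common_denom {ι : Type*} [Fintype ι] (q : ι → ℚ) :
    ∃ (D : ℤ) (q' : ι → ℤ), 0 < D ∧ ∀ i, (q' i : ℚ) = D * q i := by
  classical
  have h : ∀ i, ∃ c : ℕ, (∏ j, (q j).den) = (q i).den * c := fun i =>
    Finset.dvd_prod_of_mem (fun j => (q j).den) (Finset.mem_univ i)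
  choose c hc using h
  refine ⟨((∏ j, (q j).den : ℕ) : ℤ), fun i => (q i).num * c i, ?_, fun i => ?_⟩
  · exact_mod_cast Finset.prod_pos fun j _ => (q j).den_pos
  · rw [hc i]
    push_cast
    have h1 : ((q i).num : ℚ) = (q i).den * q i := by
      rw [mul_comm]; exact (Rat.mul_den_eq_num (q i)).symm
    rw [h1]
    ring

/-- Generalised inverses over a field. -/
theorem exists_generalised_inverse {K : Type*} [Field K] (A : Matrix n n K) :
    ∃ Y : Matrix n n K, A * Y * A = A := by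
  obtain ⟨g, hg⟩ := LinearMap.exists_rightInverse_of_surjective (Matrix.toLin' A).rangeRestrict
    (LinearMap.range_rangeRestrict _)
  obtain ⟨g', hg'⟩ := LinearMap.exists_extend g
  refine ⟨LinearMap.toMatrix' g', ?_⟩
  apply (Matrix.toLin' (R := K) (m := n) (n := n)).injective
  rw [Matrix.toLin'_mul, Matrix.toLin'_mul, Matrix.toLin'_toMatrix']
  refine LinearMap.ext fun x => ?_
  have h1 : g' (Matrix.toLin' A x) = g ⟨Matrix.toLin' A x, LinearMap.mem_range_self _ x⟩ := by
    rw [← hg']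
    rfl
  have h2 : Matrix.toLin' A (g ⟨Matrix.toLin' A x, LinearMap.mem_range_self _ x⟩) =
      Matrix.toLin' A x := by
    have := LinearMap.congr_fun hg ⟨Matrix.toLin' A x, LinearMap.mem_range_self _ x⟩
    exact congrArg Subtype.val this
  change Matrix.toLin' A (g' (Matrix.toLin' A x)) = _
  rw [h1, h2]

/-- A vector in the kernel and a functional that kills the image. -/
theorem exists_vector_functional {A : Matrix n n ℚ} (hr : 2 * A.rank < Fintype.card n) :
    ∃ k φ : n → ℚ, A *ᵥ k = 0 ∧ φ ᵥ* A = 0 ∧ φ ⬝ᵥ k = 1 := by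
  have hle : ¬ LinearMap.ker A.mulVecLin ≤ LinearMap.range A.mulVecLin := by
    intro h
    have h3 := Submodule.finrank_mono h
    have h4 := LinearMap.finrank_range_add_finrank_ker A.mulVecLin
    rw [Module.finrank_fintype_fun_eq_card] at h4
    have h5 : A.rank = Module.finrank ℚ (LinearMap.range A.mulVecLin) := rfl
    omega
  obtain ⟨k, hk, hk'⟩ := SetLike.not_le_iff_exists.1 hle
  obtain ⟨ψ, hψ, hψ'⟩ := Submodule.exists_dual_map_eq_bot_of_notMem hk' inferInstance
  have hrep : ∀ x : n → ℚ, ψ x = (fun i => ψ (Pi.single i 1)) ⬝ᵥ x := by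
    intro x
    conv_lhs => rw [← Finset.univ_sum_single x]
    rw [map_sum]
    refine Finset.sum_congr rfl fun i _ => ?_
    rw [show (Pi.single i (x i) : n → ℚ) = x i • Pi.single i 1 by
      rw [← Pi.single_smul, smul_eq_mul, mul_one], map_smul, smul_eq_mul, mul_comm]
  refine ⟨k, (ψ k)⁻¹ • fun i => ψ (Pi.single i 1), hk, ?_, ?_⟩
  · ext j
    rw [Matrix.smul_vecMul, Pi.smul_apply, Pi.zero_apply, Matrix.vecMul]
    have h3 : ψ (A *ᵥ Pi.single j 1) = 0 := by
      have h4 : ψ (A.mulVecLin (Pi.single j 1)) ∈ Submodule.map ψ (LinearMap.range A.mulVecLin) :=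
        Submodule.mem_map_of_mem (LinearMap.mem_range_self _ _)
      rw [hψ'] at h4
      exact (Submodule.mem_bot ℚ).1 h4
    rw [hrep, Matrix.mulVec_single_one] at h3
    have h4 : ((fun i => ψ (Pi.single i 1)) ⬝ᵥ fun i => A i j) = 0 := h3
    rw [h4, smul_zero]
  · rw [smul_dotProduct, ← hrep, smul_eq_mul, inv_mul_cancel₀ hψ]

/-- The integral version. -/
theorem exists_integral_data {X : Matrix n n ℤ}
    (hr : 2 * (X.map (Int.cast : ℤ → ℚ)).rank < Fintype.card n) :
    ∃ (Y : Matrix n n ℤ) (d m : ℕ) (k φ : n → ℤ), 0 < d ∧ 0 < m ∧ X * (Y * X) = (d : ℤ) • X ∧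
      X *ᵥ k = 0 ∧ φ ᵥ* X = 0 ∧ φ ⬝ᵥ k = m := by
  classical
  have hinj : Function.Injective (Int.cast : ℤ → ℚ) := Int.cast_injective
  set A : Matrix n n ℚ := X.map (Int.cast : ℤ → ℚ) with hA
  obtain ⟨Y₀, hY₀⟩ := exists_generalised_inverse A
  obtain ⟨k₀, φ₀, hk₀, hφ₀, hφk⟩ := exists_vector_functional hr
  obtain ⟨D, Y', hD, hY'⟩ := exists_common_denom (fun p : n × n => Y₀ p.1 p.2)
  obtain ⟨D₁, k, hD₁, hk⟩ := exists_common_denom k₀
  obtain ⟨D₂, φ, hD₂, hφ⟩ := exists_common_denom φ₀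
  refine ⟨Matrix.of fun i j => Y' (i, j), D.toNat, (D₂ * D₁).toNat, k, φ, by omega, ?_, ?_, ?_,
    ?_, ?_⟩
  · have := mul_pos hD₂ hD₁
    omega
  · have hDc : ((D.toNat : ℕ) : ℤ) = D := Int.toNat_of_nonneg hD.le
    rw [hDc]
    apply Matrix.map_injective hinj
    have e1 : (Matrix.of fun i j => Y' (i, j)).map (Int.cast : ℤ → ℚ) = (D : ℚ) • Y₀ := by
      ext i j
      simp [hY' (i, j)]
    have e2 : (X * ((Matrix.of fun i j => Y' (i, j)) * X)).map (Int.cast : ℤ → ℚ) =
        A * (((Matrix.of fun i j => Y' (i, j)).map (Int.cast : ℤ → ℚ)) * A) := by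
      rw [hA]
      exact (Matrix.map_mul (f := Int.castRingHom ℚ)).trans
        (congrArg _ (Matrix.map_mul (f := Int.castRingHom ℚ)))
    have e3 : ((D • X).map (Int.cast : ℤ → ℚ)) = (D : ℚ) • A := by
      ext i j
      rw [Matrix.map_apply, Matrix.smul_apply, Matrix.smul_apply, hA, Matrix.map_apply,
        smul_eq_mul, smul_eq_mul, Int.cast_mul]
    change (X * ((Matrix.of fun i j => Y' (i, j)) * X)).map (Int.cast : ℤ → ℚ) =
      (D • X).map (Int.cast : ℤ → ℚ)
    rw [e2, e1, e3, Matrix.smul_mul, Matrix.mul_smul, ← Matrix.mul_assoc, hY₀]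
  · ext i
    apply hinj
    have h3 := congrFun hk₀ i
    simp only [Matrix.mulVec, dotProduct, hA, Matrix.map_apply, Pi.zero_apply] at h3
    simp only [Matrix.mulVec, dotProduct, Pi.zero_apply]
    push_cast
    simp only [hk]
    calc ∑ j, (X i j : ℚ) * (D₁ * k₀ j) = D₁ * ∑ j, (X i j : ℚ) * k₀ j := by
          rw [Finset.mul_sum]
          exact Finset.sum_congr rfl fun _ _ => by ring
      _ = 0 := by rw [h3, mul_zero]
  · ext i
    apply hinj
    have h3 := congrFun hφ₀ i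
    simp only [Matrix.vecMul, dotProduct, hA, Matrix.map_apply, Pi.zero_apply] at h3
    simp only [Matrix.vecMul, dotProduct, Pi.zero_apply]
    push_cast
    simp only [hφ]
    calc ∑ j, (D₂ * φ₀ j) * (X j i : ℚ) = D₂ * ∑ j, φ₀ j * (X j i : ℚ) := by
          rw [Finset.mul_sum]
          exact Finset.sum_congr rfl fun _ _ => by ring
      _ = 0 := by rw [h3, mul_zero]
  · have hm : (((D₂ * D₁).toNat : ℕ) : ℤ) = D₂ * D₁ :=
      Int.toNat_of_nonneg (mul_pos hD₂ hD₁).le
    rw [hm]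
    apply hinj
    simp only [dotProduct] at hφk ⊢
    push_cast
    simp only [hφ, hk]
    calc ∑ j, (D₂ * φ₀ j) * (D₁ * k₀ j) = D₂ * D₁ * ∑ j, φ₀ j * k₀ j := by
          rw [Finset.mul_sum]
          exact Finset.sum_congr rfl fun _ _ => by ring
      _ = D₂ * D₁ := by rw [hφk, mul_one]

end Pool.Agent.Work.MP_34eaa2_al
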