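import Pool.Agent.Work.MP_34eaa2_al.Heisenberg

/-!
# Unipotent elements of SL(3, ℤ)

The group theory: unitriangular matrices and some torsion elements, and the fact that every
unipotent element is conjugate to a unitriangular one.
-/

open Topology Filter Matrix

namespace Pool.Agent.Work.MP_34eaa2_al

/-- The group `SL(3, ℤ)`. -/
abbrev G3 : Type := Matrix.SpecialLinearGroup (Fin 3) ℤ

/-- Unitriangular matrices. -/
def U (a b c : ℤ) : G3 := ⟨!![1, a, c; 0, 1, b; 0, 0, 1], by simp [Matrix.det_fin_three]⟩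

/-- `diag(-1, 1, -1)`. -/
def D1 : G3 := ⟨!![-1, 0, 0; 0, 1, 0; 0, 0, -1], by simp [Matrix.det_fin_three]⟩

/-- `diag(1, -1, -1)`. -/
def D2 : G3 := ⟨!![1, 0, 0; 0, -1, 0; 0, 0, -1], by simp [Matrix.det_fin_three]⟩

/-- `diag(-1, -1, 1)`. -/
def D3 : G3 := ⟨!![-1, 0, 0; 0, -1, 0; 0, 0, 1], by simp [Matrix.det_fin_three]⟩

/-- A quarter turn in the first two coordinates. -/
def S12 : G3 := ⟨!![0, 1, 0; -1, 0, 0; 0, 0, 1], by simp [Matrix.det_fin_three]⟩

/-- A quarter turn in the last two coordinates. -/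
def S23 : G3 := ⟨!![1, 0, 0; 0, 0, 1; 0, -1, 0], by simp [Matrix.det_fin_three]⟩

theorem U_mul (a b c a' b' c' : ℤ) : U a b c * U a' b' c' = U (a + a') (b + b') (c + c' + a * b')
    := by
  apply Subtype.ext
  rw [Matrix.SpecialLinearGroup.coe_mul]
  ext i j
  fin_cases i <;> fin_cases j <;> simp [U, Matrix.mul_apply, Fin.sum_univ_three] <;> ring

theorem U_zero : U 0 0 0 = 1 := by
  apply Subtype.ext
  ext i j
  fin_cases i <;> fin_cases j <;> simp [U]

theorem U_inv (a b c : ℤ) : (U a b c)⁻¹ = U (-a) (-b) (a * b - c) := by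
  rw [inv_eq_iff_mul_eq_one, U_mul, ← U_zero]
  congr 1 <;> ring

theorem D1_conj (a b c : ℤ) : D1 * U a b c = U (-a) (-b) c * D1 := by
  apply Subtype.ext
  rw [Matrix.SpecialLinearGroup.coe_mul, Matrix.SpecialLinearGroup.coe_mul]
  ext i j
  fin_cases i <;> fin_cases j <;> simp [U, D1, Matrix.mul_apply, Fin.sum_univ_three]

theorem D2_conj (a b c : ℤ) : D2 * U a b c = U (-a) b (-c) * D2 := by
  apply Subtype.ext
  rw [Matrix.SpecialLinearGroup.coe_mul, Matrix.SpecialLinearGroup.coe_mul]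
  ext i j
  fin_cases i <;> fin_cases j <;> simp [U, D2, Matrix.mul_apply, Fin.sum_univ_three]

theorem D3_conj (a b c : ℤ) : D3 * U a b c = U a (-b) (-c) * D3 := by
  apply Subtype.ext
  rw [Matrix.SpecialLinearGroup.coe_mul, Matrix.SpecialLinearGroup.coe_mul]
  ext i j
  fin_cases i <;> fin_cases j <;> simp [U, D3, Matrix.mul_apply, Fin.sum_univ_three]

theorem S12_conj (b c : ℤ) : U 0 b c * S12 = S12 * U 0 c (-b) := by
  apply Subtype.ext
  rw [Matrix.SpecialLinearGroup.coe_mul, Matrix.SpecialLinearGroup.coe_mul]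
  ext i j
  fin_cases i <;> fin_cases j <;> simp [U, S12, Matrix.mul_apply, Fin.sum_univ_three]

theorem S23_conj (a c : ℤ) : U a 0 c * S23 = S23 * U (-c) 0 a := by
  apply Subtype.ext
  rw [Matrix.SpecialLinearGroup.coe_mul, Matrix.SpecialLinearGroup.coe_mul]
  ext i j
  fin_cases i <;> fin_cases j <;> simp [U, S23, Matrix.mul_apply, Fin.sum_univ_three]

theorem S12_sq : S12 * S12 = D3 := by
  apply Subtype.ext
  rw [Matrix.SpecialLinearGroup.coe_mul]
  ext i j
  fin_cases i <;> fin_cases j <;> simp [D3, S12, Matrix.mul_apply, Fin.sum_univ_three]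

theorem S23_sq : S23 * S23 = D2 := by
  apply Subtype.ext
  rw [Matrix.SpecialLinearGroup.coe_mul]
  ext i j
  fin_cases i <;> fin_cases j <;> simp [D2, S23, Matrix.mul_apply, Fin.sum_univ_three]

theorem D2_mul_D3 : D2 * D3 = D1 := by
  apply Subtype.ext
  rw [Matrix.SpecialLinearGroup.coe_mul]
  ext i j
  fin_cases i <;> fin_cases j <;> simp [D1, D2, D3, Matrix.mul_apply, Fin.sum_univ_three]

theorem U_pow (a b c : ℤ) (m : ℕ) : ∃ c' : ℤ, U a b c ^ m = U (m * a) (m * b) c' := by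
  induction m with
  | zero => exact ⟨0, by simp [U_zero]⟩
  | succ m ih =>
    obtain ⟨c', hc'⟩ := ih
    refine ⟨c' + c + m * a * b, ?_⟩
    rw [pow_succ, hc', U_mul]
    congr 1 <;> push_cast <;> ring

/-- Integer vectors have primitive parts. -/
theorem exists_primitive {v₀ : Fin 3 → ℤ} (h : v₀ ≠ 0) :
    ∃ (d : ℤ) (v r : Fin 3 → ℤ), d ≠ 0 ∧ v₀ = d • v ∧ r ⬝ᵥ v = 1 := by
  obtain ⟨d, hd⟩ := IsPrincipalIdealRing.principal (Ideal.span (Set.range v₀))
  have hd' : Ideal.span (Set.range v₀) = Ideal.span {d} := hd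
  have hdvd : ∀ i, ∃ c, v₀ i = d * c := by
    intro i
    have : v₀ i ∈ Ideal.span {d} := by
      rw [← hd']
      exact Ideal.subset_span ⟨i, rfl⟩
    exact (Ideal.mem_span_singleton.1 this)
  choose v hv using hdvd
  have hv' : v₀ = d • v := by
    ext i
    simp [hv i]
  have hd0 : d ≠ 0 := by
    rintro rfl
    exact h (by rw [hv', zero_smul])
  have hmem : d ∈ Ideal.span (Set.range v₀) := by
    rw [hd']
    exact Ideal.mem_span_singleton_self d
  obtain ⟨r, hr⟩ := (Ideal.mem_span_range_iff_exists_fun).1 hmem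
  refine ⟨d, v, r, hd0, hv', ?_⟩
  have h1 : d * (r ⬝ᵥ v) = d * 1 := by
    rw [mul_one]
    conv_rhs => rw [← hr]
    simp only [dotProduct, Finset.mul_sum]
    refine Finset.sum_congr rfl fun i _ => ?_
    rw [hv i]
    ring
  exact mul_left_cancel₀ hd0 h1

/-- The matrix with rows `r`, `h × v`, `f`. -/
def rowMat (r h v f : Fin 3 → ℤ) : Matrix (Fin 3) (Fin 3) ℤ :=
  !![r 0, r 1, r 2;
    h 1 * v 2 - h 2 * v 1, h 2 * v 0 - h 0 * v 2, h 0 * v 1 - h 1 * v 0;
    f 0, f 1, f 2]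

theorem det_rowMat (r h v f : Fin 3 → ℤ) :
    (rowMat r h v f).det = (r ⬝ᵥ v) * (f ⬝ᵥ h) - (r ⬝ᵥ h) * (f ⬝ᵥ v) := by
  simp [rowMat, Matrix.det_fin_three, dotProduct, Fin.sum_univ_three]
  ring

/-- Adapted coordinates. -/
theorem exists_conj_of_vectors (W : G3) {r h v f : Fin 3 → ℤ} (hrv : r ⬝ᵥ v = 1)
    (hfh : f ⬝ᵥ h = 1) (hfv : f ⬝ᵥ v = 0) (hv : W.1 *ᵥ v = v) (hf : f ᵥ* W.1 = f) :
    ∃ (g : G3) (a b c : ℤ), g * W * g⁻¹ = U a b c := by
  let g : G3 := ⟨rowMat r h v f, by rw [det_rowMat, hrv, hfh, hfv]; ring⟩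
  have hg1 : g.1 *ᵥ v = ![1, 0, 0] := by
    ext i
    fin_cases i
    · have := hrv
      simp only [dotProduct, Fin.sum_univ_three] at this
      simp [g, rowMat, Matrix.mulVec, dotProduct, Fin.sum_univ_three, this]
    · simp [g, rowMat, Matrix.mulVec, dotProduct, Fin.sum_univ_three]
      ring
    · have := hfv
      simp only [dotProduct, Fin.sum_univ_three] at this
      simp [g, rowMat, Matrix.mulVec, dotProduct, Fin.sum_univ_three, this]
  have hg2 : ![0, 0, 1] ᵥ* g.1 = f := by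
    ext i
    fin_cases i <;> simp [g, rowMat, Matrix.vecMul, dotProduct, Fin.sum_univ_three]
  set Z : G3 := g * W * g⁻¹ with hZ
  have hZg : Z * g = g * W := by rw [hZ, inv_mul_cancel_right]
  have hZg' : Z.1 * g.1 = g.1 * W.1 := by
    have := congrArg Subtype.val hZg
    simpa using this
  have h1 : Z.1 *ᵥ ![1, 0, 0] = ![1, 0, 0] := by
    calc Z.1 *ᵥ ![1, 0, 0] = Z.1 *ᵥ (g.1 *ᵥ v) := by rw [hg1]
      _ = (Z.1 * g.1) *ᵥ v := by rw [Matrix.mulVec_mulVec]
      _ = g.1 *ᵥ (W.1 *ᵥ v) := by rw [hZg', Matrix.mulVec_mulVec]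
      _ = ![1, 0, 0] := by rw [hv, hg1]
  have h2 : ![0, 0, 1] ᵥ* Z.1 = ![0, 0, 1] := by
    have h3 : (![0, 0, 1] ᵥ* Z.1) ᵥ* g.1 = ![0, 0, 1] ᵥ* g.1 := by
      calc (![0, 0, 1] ᵥ* Z.1) ᵥ* g.1 = ![0, 0, 1] ᵥ* (Z.1 * g.1) := by
            rw [Matrix.vecMul_vecMul]
        _ = (![0, 0, 1] ᵥ* g.1) ᵥ* W.1 := by rw [hZg', Matrix.vecMul_vecMul]
        _ = ![0, 0, 1] ᵥ* g.1 := by rw [hg2, hf]
    have h4 : g.1 * (g⁻¹).1 = 1 := by
      rw [← Matrix.SpecialLinearGroup.coe_mul, mul_inv_cancel]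
      rfl
    calc ![0, 0, 1] ᵥ* Z.1 = ((![0, 0, 1] ᵥ* Z.1) ᵥ* g.1) ᵥ* (g⁻¹).1 := by
          rw [Matrix.vecMul_vecMul, h4, Matrix.vecMul_one]
      _ = ![0, 0, 1] := by rw [h3, Matrix.vecMul_vecMul, h4, Matrix.vecMul_one]
  have e00 : Z.1 0 0 = 1 := by
    have := congrFun h1 0
    simpa [Matrix.mulVec, dotProduct, Fin.sum_univ_three] using this
  have e10 : Z.1 1 0 = 0 := by
    have := congrFun h1 1
    simpa [Matrix.mulVec, dotProduct, Fin.sum_univ_three] using this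
  have e20 : Z.1 2 0 = 0 := by
    have := congrFun h1 2
    simpa [Matrix.mulVec, dotProduct, Fin.sum_univ_three] using this
  have e21 : Z.1 2 1 = 0 := by
    have := congrFun h2 1
    simpa [Matrix.vecMul, dotProduct, Fin.sum_univ_three] using this
  have e22 : Z.1 2 2 = 1 := by
    have := congrFun h2 2
    simpa [Matrix.vecMul, dotProduct, Fin.sum_univ_three] using this
  have e11 : Z.1 1 1 = 1 := by
    have := Z.2
    rw [Matrix.det_fin_three, e00, e10, e20, e21, e22] at this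
    linarith
  refine ⟨g, Z.1 0 1, Z.1 1 2, Z.1 0 2, ?_⟩
  rw [← hZ]
  clear_value Z
  apply Subtype.ext
  ext i j
  fin_cases i <;> fin_cases j
  · exact e00
  · rfl
  · rfl
  · exact e10
  · exact e11
  · rfl
  · exact e20
  · exact e21
  · exact e22

theorem exists_conj_of_square_zero (W : G3) {K : Matrix (Fin 3) (Fin 3) ℤ} (hK : K ≠ 0)
    (h1 : W.1 * K = K) (h2 : K * W.1 = K) (h3 : K * K = 0) :
    ∃ (g : G3) (a b c : ℤ), g * W * g⁻¹ = U a b c := by
  obtain ⟨i, j, hij⟩ : ∃ i j, K i j ≠ 0 := by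
    by_contra hcon
    push Not at hcon
    exact hK (by ext i j; simpa using hcon i j)
  have hcol : K.col j ≠ 0 := fun h => hij (congrFun h i)
  have hrow : K.row i ≠ 0 := fun h => hij (congrFun h j)
  obtain ⟨d, v, r, hd, hv, hrv⟩ := exists_primitive hcol
  obtain ⟨e, f, h, he, hf, hhf⟩ := exists_primitive hrow
  have hWv : W.1 *ᵥ v = v := by
    have h4 : d • (W.1 *ᵥ v) = d • v := by
      rw [← Matrix.mulVec_smul, ← hv]
      ext k
      have := congrFun (congrFun h1 k) j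
      simpa [Matrix.mulVec, Matrix.mul_apply, dotProduct] using this
    exact smul_right_injective _ hd h4
  have hfW : f ᵥ* W.1 = f := by
    have h4 : e • (f ᵥ* W.1) = e • f := by
      rw [← Matrix.smul_vecMul, ← hf]
      ext k
      have := congrFun (congrFun h2 i) k
      simpa [Matrix.vecMul, Matrix.mul_apply, dotProduct] using this
    exact smul_right_injective _ he h4
  have hfv : f ⬝ᵥ v = 0 := by
    have h4 : (K.row i) ⬝ᵥ (K.col j) = 0 := by
      have := congrFun (congrFun h3 i) j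
      simpa [Matrix.mul_apply, dotProduct] using this
    rw [hf, hv, smul_dotProduct, dotProduct_smul] at h4
    simpa [hd, he] using h4
  exact exists_conj_of_vectors W hrv (by rw [dotProduct_comm]; exact hhf) hfv hWv hfW

/-- Every unipotent element of `SL(3, ℤ)` is conjugate to a unitriangular matrix. -/
theorem exists_conj_unitriangular (W : G3) (hW : (W.1 - 1) ^ 3 = 0) :
    ∃ (g : G3) (a b c : ℤ), g * W * g⁻¹ = U a b c := by
  set N := W.1 - 1 with hN
  have hWN : W.1 = N + 1 := by rw [hN]; simp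
  by_cases h2 : N ^ 2 = 0
  · by_cases h1 : N = 0
    · refine ⟨1, 0, 0, 0, ?_⟩
      have : W = 1 := by
        ext i j
        rw [hWN, h1]
        simp
      rw [this, U_zero]
      simp
    · refine exists_conj_of_square_zero W h1 ?_ ?_ ?_
      · rw [hWN, add_mul, one_mul, ← pow_two, h2, zero_add]
      · rw [hWN, mul_add, mul_one, ← pow_two, h2, zero_add]
      · rw [← pow_two, h2]
  · refine exists_conj_of_square_zero W h2 ?_ ?_ ?_
    · rw [hWN, add_mul, one_mul, ← pow_succ', hW, zero_add]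
    · rw [hWN, mul_add, mul_one, ← pow_succ, hW, zero_add]
    · rw [← pow_add, show 2 + 2 = 3 + 1 from rfl, pow_succ, hW, zero_mul]

end Pool.Agent.Work.MP_34eaa2_al
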