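import Mathlib

/-!
# The Siegel upper half space and the universal covering group of `Sp(2n, ℝ)`
-/

open Topology Filter Matrix
open scoped ComplexOrder

namespace Pool.Agent.Work.MP_34eaa2_al

/-- The Siegel upper half space of degree `n`: the complex symmetric matrices `Z` whose
imaginary part `(Z - Zᴴ) / (2 i)` is positive definite. -/
def Siegel (n : ℕ) : Set (Matrix (Fin n) (Fin n) ℂ) :=
  {Z | Zᵀ = Z ∧ ((2 * Complex.I)⁻¹ • (Z - Zᴴ)).PosDef}

variable {n : ℕ}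

/-- The complexification of a real symplectic matrix. -/
def cplx (g : symplecticGroup (Fin n) ℝ) : Matrix (Fin n ⊕ Fin n) (Fin n ⊕ Fin n) ℂ :=
  (g : Matrix (Fin n ⊕ Fin n) (Fin n ⊕ Fin n) ℝ).map Complex.ofReal

/-- The numerator `A Z + B`. -/
def num (g : symplecticGroup (Fin n) ℝ) (Z : Matrix (Fin n) (Fin n) ℂ) :
    Matrix (Fin n) (Fin n) ℂ := (cplx g).toBlocks₁₁ * Z + (cplx g).toBlocks₁₂

/-- The denominator `C Z + D`. -/
def den (g : symplecticGroup (Fin n) ℝ) (Z : Matrix (Fin n) (Fin n) ℂ) :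
    Matrix (Fin n) (Fin n) ℂ := (cplx g).toBlocks₂₁ * Z + (cplx g).toBlocks₂₂

theorem cplx_mul (g h : symplecticGroup (Fin n) ℝ) : cplx (g * h) = cplx g * cplx h := by
  unfold cplx
  exact Matrix.map_mul (f := Complex.ofRealHom)

theorem cplx_one : cplx (1 : symplecticGroup (Fin n) ℝ) = 1 := by
  unfold cplx
  exact Matrix.map_one _ Complex.ofReal_zero Complex.ofReal_one

theorem cplx_rel (g : symplecticGroup (Fin n) ℝ) :
    (cplx g).toBlocks₁₁ᵀ * (cplx g).toBlocks₂₁ = (cplx g).toBlocks₂₁ᵀ * (cplx g).toBlocks₁₁ ∧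
    (cplx g).toBlocks₁₂ᵀ * (cplx g).toBlocks₂₂ = (cplx g).toBlocks₂₂ᵀ * (cplx g).toBlocks₁₂ ∧
    (cplx g).toBlocks₁₁ᵀ * (cplx g).toBlocks₂₂ - (cplx g).toBlocks₂₁ᵀ * (cplx g).toBlocks₁₂
      = 1 := by
  rw [← SymplecticGroup.fromBlocks_mem_iff, Matrix.fromBlocks_toBlocks]
  exact SymplecticGroup.map_mem g.2 Complex.ofRealHom

theorem cplx_conjTranspose (g : symplecticGroup (Fin n) ℝ) : (cplx g)ᴴ = (cplx g)ᵀ := by
  ext i j
  simp [cplx, Matrix.conjTranspose_apply]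

theorem block11 (g : symplecticGroup (Fin n) ℝ) :
    (cplx g).toBlocks₁₁ᴴ = (cplx g).toBlocks₁₁ᵀ := by
  ext i j
  simp [cplx, Matrix.toBlocks₁₁]

theorem block12 (g : symplecticGroup (Fin n) ℝ) :
    (cplx g).toBlocks₁₂ᴴ = (cplx g).toBlocks₁₂ᵀ := by
  ext i j
  simp [cplx, Matrix.toBlocks₁₂]

theorem block21 (g : symplecticGroup (Fin n) ℝ) :
    (cplx g).toBlocks₂₁ᴴ = (cplx g).toBlocks₂₁ᵀ := by
  ext i j
  simp [cplx, Matrix.toBlocks₂₁]

theorem block22 (g : symplecticGroup (Fin n) ℝ) :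
    (cplx g).toBlocks₂₂ᴴ = (cplx g).toBlocks₂₂ᵀ := by
  ext i j
  simp [cplx, Matrix.toBlocks₂₂]

/-- The symmetry relation. -/
theorem num_den_symm (g : symplecticGroup (Fin n) ℝ) {Z : Matrix (Fin n) (Fin n) ℂ}
    (hZ : Zᵀ = Z) : (num g Z)ᵀ * den g Z = (den g Z)ᵀ * num g Z := by
  obtain ⟨h1, h2, h3⟩ := cplx_rel g
  have h4 := congrArg Matrix.transpose h3
  simp only [num, den]
  set A := (cplx g).toBlocks₁₁
  set B := (cplx g).toBlocks₁₂
  set C := (cplx g).toBlocks₂₁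
  set D := (cplx g).toBlocks₂₂
  rw [Matrix.transpose_sub, Matrix.transpose_mul, Matrix.transpose_mul,
    Matrix.transpose_transpose, Matrix.transpose_transpose, Matrix.transpose_one] at h4
  rw [Matrix.transpose_add, Matrix.transpose_add, Matrix.transpose_mul, Matrix.transpose_mul, hZ]
  have e1 : (Z * Aᵀ + Bᵀ) * (C * Z + D) =
      Z * (Aᵀ * C) * Z + Z * (Aᵀ * D) + (Bᵀ * C) * Z + Bᵀ * D := by noncomm_ring
  have e2 : (Z * Cᵀ + Dᵀ) * (A * Z + B) =
      Z * (Cᵀ * A) * Z + Z * (Cᵀ * B) + (Dᵀ * A) * Z + Dᵀ * B := by noncomm_ring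
  have h3' : Aᵀ * D = 1 + Cᵀ * B := by rw [← h3]; abel
  have h4' : Dᵀ * A = 1 + Bᵀ * C := by rw [← h4]; abel
  rw [e1, e2, h1, h2, h3', h4']
  noncomm_ring

/-- The hermitian relation. -/
theorem num_den_herm (g : symplecticGroup (Fin n) ℝ) (Z : Matrix (Fin n) (Fin n) ℂ) :
    (den g Z)ᴴ * num g Z - (num g Z)ᴴ * den g Z = Z - Zᴴ := by
  obtain ⟨h1, h2, h3⟩ := cplx_rel g
  have h4 := congrArg Matrix.transpose h3
  have b1 := block11 g
  have b2 := block12 g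
  have b3 := block21 g
  have b4 := block22 g
  simp only [num, den]
  set A := (cplx g).toBlocks₁₁
  set B := (cplx g).toBlocks₁₂
  set C := (cplx g).toBlocks₂₁
  set D := (cplx g).toBlocks₂₂
  rw [Matrix.transpose_sub, Matrix.transpose_mul, Matrix.transpose_mul,
    Matrix.transpose_transpose, Matrix.transpose_transpose, Matrix.transpose_one] at h4
  rw [Matrix.conjTranspose_add, Matrix.conjTranspose_add, Matrix.conjTranspose_mul,
    Matrix.conjTranspose_mul, b1, b2, b3, b4]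
  set Y := Zᴴ
  have e1 : (Y * Cᵀ + Dᵀ) * (A * Z + B) - (Y * Aᵀ + Bᵀ) * (C * Z + D) =
      Y * (Cᵀ * A) * Z + Y * (Cᵀ * B) + (Dᵀ * A) * Z + Dᵀ * B
      - (Y * (Aᵀ * C) * Z + Y * (Aᵀ * D) + (Bᵀ * C) * Z + Bᵀ * D) := by noncomm_ring
  have h3' : Aᵀ * D = 1 + Cᵀ * B := by rw [← h3]; abel
  have h4' : Dᵀ * A = 1 + Bᵀ * C := by rw [← h4]; abel
  rw [e1, h1, h2, h3', h4']
  noncomm_ring

/-- The denominator is invertible on the Siegel upper half space. -/
theorem den_isUnit (g : symplecticGroup (Fin n) ℝ) {Z : Matrix (Fin n) (Fin n) ℂ}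
    (hZ : Z ∈ Siegel n) : IsUnit (den g Z).det := by
  rw [isUnit_iff_ne_zero]
  intro hdet
  obtain ⟨v, hv, hv0⟩ := Matrix.exists_mulVec_eq_zero_iff.2 hdet
  have h1 := hZ.2.dotProduct_mulVec_pos hv
  rw [← num_den_herm g Z] at h1
  have h2 : star v ⬝ᵥ (((2 * Complex.I)⁻¹ • ((den g Z)ᴴ * num g Z - (num g Z)ᴴ * den g Z)) *ᵥ v)
      = 0 := by
    rw [Matrix.smul_mulVec, Matrix.sub_mulVec, ← Matrix.mulVec_mulVec, ← Matrix.mulVec_mulVec,
      hv0, Matrix.mulVec_zero, sub_zero, dotProduct_smul, Matrix.dotProduct_mulVec,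
      ← Matrix.star_mulVec, hv0, star_zero, zero_dotProduct, smul_zero]
  rw [h2] at h1
  exact lt_irrefl _ h1

/-- The action on the Siegel upper half space. -/
noncomputable def act' (g : symplecticGroup (Fin n) ℝ) (Z : Matrix (Fin n) (Fin n) ℂ) :
    Matrix (Fin n) (Fin n) ℂ := num g Z * (den g Z)⁻¹

theorem act'_mem (g : symplecticGroup (Fin n) ℝ) {Z : Matrix (Fin n) (Fin n) ℂ}
    (hZ : Z ∈ Siegel n) : act' g Z ∈ Siegel n := by
  have hu := den_isUnit g hZ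
  have hsymm := num_den_symm g hZ.1
  have hherm := num_den_herm g Z
  have hinv : den g Z * (den g Z)⁻¹ = 1 := Matrix.mul_nonsing_inv _ hu
  constructor
  · unfold act'
    rw [Matrix.transpose_mul]
    calc ((den g Z)⁻¹)ᵀ * (num g Z)ᵀ = ((den g Z)⁻¹)ᵀ * ((num g Z)ᵀ * den g Z) * (den g Z)⁻¹ := by
          rw [Matrix.mul_assoc, Matrix.mul_assoc, hinv, Matrix.mul_one]
      _ = (((den g Z)⁻¹)ᵀ * (den g Z)ᵀ) * (num g Z * (den g Z)⁻¹) := by
          rw [hsymm]; simp only [Matrix.mul_assoc]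
      _ = num g Z * (den g Z)⁻¹ := by
          rw [← Matrix.transpose_mul, hinv, Matrix.transpose_one, Matrix.one_mul]
  · have h1 : act' g Z - (act' g Z)ᴴ = ((den g Z)⁻¹)ᴴ * (Z - Zᴴ) * (den g Z)⁻¹ := by
      rw [← hherm]
      unfold act'
      rw [Matrix.conjTranspose_mul]
      have e : ((den g Z)⁻¹)ᴴ * (den g Z)ᴴ = 1 := by
        rw [← Matrix.conjTranspose_mul, hinv, Matrix.conjTranspose_one]
      calc num g Z * (den g Z)⁻¹ - ((den g Z)⁻¹)ᴴ * (num g Z)ᴴ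
          = (((den g Z)⁻¹)ᴴ * (den g Z)ᴴ) * (num g Z * (den g Z)⁻¹) -
            ((den g Z)⁻¹)ᴴ * (num g Z)ᴴ * (den g Z * (den g Z)⁻¹) := by
            rw [e, hinv, Matrix.one_mul, Matrix.mul_one]
        _ = _ := by noncomm_ring
    have h2 : (2 * Complex.I)⁻¹ • (act' g Z - (act' g Z)ᴴ) =
        ((den g Z)⁻¹)ᴴ * ((2 * Complex.I)⁻¹ • (Z - Zᴴ)) * (den g Z)⁻¹ := by
      rw [h1, Matrix.mul_smul, Matrix.smul_mul]
    rw [h2]
    refine hZ.2.conjTranspose_mul_mul_same ?_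
    intro v w hvw
    have h3 := congrArg (fun x => den g Z *ᵥ x) hvw
    simpa [Matrix.mulVec_mulVec, hinv] using h3

/-- The cocycle relations. -/
theorem num_mul (g h : symplecticGroup (Fin n) ℝ) {Z : Matrix (Fin n) (Fin n) ℂ}
    (hZ : Z ∈ Siegel n) : num (g * h) Z = num g (act' h Z) * den h Z := by
  have hinv : (den h Z)⁻¹ * den h Z = 1 := Matrix.nonsing_inv_mul _ (den_isUnit h hZ)
  have h1 : num g (act' h Z) * den h Z =
      (cplx g).toBlocks₁₁ * num h Z + (cplx g).toBlocks₁₂ * den h Z := by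
    unfold num act'
    rw [add_mul, Matrix.mul_assoc, Matrix.mul_assoc]
    congr 2
    unfold num
    rw [hinv, Matrix.mul_one]
  rw [h1]
  have h2 : cplx (g * h) = fromBlocks (cplx g).toBlocks₁₁ (cplx g).toBlocks₁₂
      (cplx g).toBlocks₂₁ (cplx g).toBlocks₂₂ * fromBlocks (cplx h).toBlocks₁₁
      (cplx h).toBlocks₁₂ (cplx h).toBlocks₂₁ (cplx h).toBlocks₂₂ := by
    rw [Matrix.fromBlocks_toBlocks, Matrix.fromBlocks_toBlocks, cplx_mul]
  rw [Matrix.fromBlocks_multiply] at h2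
  unfold num den
  rw [h2, Matrix.toBlocks_fromBlocks₁₁, Matrix.toBlocks_fromBlocks₁₂]
  noncomm_ring

theorem den_mul (g h : symplecticGroup (Fin n) ℝ) {Z : Matrix (Fin n) (Fin n) ℂ}
    (hZ : Z ∈ Siegel n) : den (g * h) Z = den g (act' h Z) * den h Z := by
  have hinv : (den h Z)⁻¹ * den h Z = 1 := Matrix.nonsing_inv_mul _ (den_isUnit h hZ)
  have h1 : den g (act' h Z) * den h Z =
      (cplx g).toBlocks₂₁ * num h Z + (cplx g).toBlocks₂₂ * den h Z := by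
    have h3 : den g (act' h Z) = (cplx g).toBlocks₂₁ * (num h Z * (den h Z)⁻¹) +
      (cplx g).toBlocks₂₂ := rfl
    rw [h3, add_mul, Matrix.mul_assoc, Matrix.mul_assoc, hinv, Matrix.mul_one]
  rw [h1]
  have h2 : cplx (g * h) = fromBlocks (cplx g).toBlocks₁₁ (cplx g).toBlocks₁₂
      (cplx g).toBlocks₂₁ (cplx g).toBlocks₂₂ * fromBlocks (cplx h).toBlocks₁₁
      (cplx h).toBlocks₁₂ (cplx h).toBlocks₂₁ (cplx h).toBlocks₂₂ := by
    rw [Matrix.fromBlocks_toBlocks, Matrix.fromBlocks_toBlocks, cplx_mul]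
  rw [Matrix.fromBlocks_multiply] at h2
  unfold num den
  rw [h2, Matrix.toBlocks_fromBlocks₂₁, Matrix.toBlocks_fromBlocks₂₂]
  noncomm_ring

theorem num_one (Z : Matrix (Fin n) (Fin n) ℂ) : num 1 Z = Z := by
  unfold num
  rw [cplx_one, ← Matrix.fromBlocks_one, Matrix.toBlocks_fromBlocks₁₁,
    Matrix.toBlocks_fromBlocks₁₂, Matrix.one_mul, add_zero]

theorem den_one (Z : Matrix (Fin n) (Fin n) ℂ) : den 1 Z = 1 := by
  unfold den
  rw [cplx_one, ← Matrix.fromBlocks_one, Matrix.toBlocks_fromBlocks₂₁,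
    Matrix.toBlocks_fromBlocks₂₂, Matrix.zero_mul, zero_add]

theorem act'_one (Z : Matrix (Fin n) (Fin n) ℂ) : act' 1 Z = Z := by
  unfold act'
  rw [num_one, den_one, inv_one, Matrix.mul_one]

theorem act'_mul (g h : symplecticGroup (Fin n) ℝ) {Z : Matrix (Fin n) (Fin n) ℂ}
    (hZ : Z ∈ Siegel n) : act' (g * h) Z = act' g (act' h Z) := by
  have hu := den_isUnit h hZ
  have hu' := den_isUnit g (act'_mem h hZ)
  have hinv : den h Z * (den h Z)⁻¹ = 1 := Matrix.mul_nonsing_inv _ hu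
  conv_lhs => unfold act'
  rw [num_mul g h hZ, den_mul g h hZ, Matrix.mul_inv_rev]
  calc num g (act' h Z) * den h Z * ((den h Z)⁻¹ * (den g (act' h Z))⁻¹)
      = num g (act' h Z) * (den h Z * (den h Z)⁻¹) * (den g (act' h Z))⁻¹ := by noncomm_ring
    _ = _ := by rw [hinv, Matrix.mul_one]; rfl

end Pool.Agent.Work.MP_34eaa2_al
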