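import Pool.Agent.Work.MP_34eaa2_al.Defs

/-!
# The universal space for a central element

Given `u : Γ → ℤ` with `|u (f g) - u g| ≤ N f` and `u g + 1 ≤ u (g z)`, `z` central, the group
`Γ` acts on a compact metrizable space with `z` hyperbolic.
-/

open Topology Filter

namespace Pool.Agent.Work.MP_34eaa2_al

variable {Γ : Type} [Group Γ]

/-- The closed set of all threshold functions. `s (g, n) = true` means that the value at `g` is
at least `n`. -/
def thr (z : Γ) (N : Γ → ℕ) : Set (Γ × ℤ → Bool) :=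
  {s | (∀ g n, s (g, n + 1) = true → s (g, n) = true) ∧
    (∀ f g n, s (g, n) = true → s (f * g, n - N f) = true) ∧
    (∀ f g n, s (f * g, n) = true → s (g, n - N f) = true) ∧
    (∀ g n, s (g, n) = true → s (g * z, n + 1) = true)}

theorem isClosed_imp {ι : Type} (a b : ι) :
    IsClosed {s : ι → Bool | s a = true → s b = true} := by
  have h : Continuous fun s : ι → Bool => (s a, s b) := by fun_prop
  exact (isClosed_discrete {p : Bool × Bool | p.1 = true → p.2 = true}).preimage h

theorem isClosed_thr (z : Γ) (N : Γ → ℕ) : IsClosed (thr z N) := by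
  have : thr z N = (⋂ g, ⋂ n, {s | s (g, n + 1) = true → s (g, n) = true}) ∩
      ((⋂ f, ⋂ g, ⋂ n, {s | s (g, n) = true → s (f * g, n - N f) = true}) ∩
      ((⋂ f, ⋂ g, ⋂ n, {s | s (f * g, n) = true → s (g, n - N f) = true}) ∩
      (⋂ g, ⋂ n, {s | s (g, n) = true → s (g * z, n + 1) = true}))) := by
    ext s
    simp [thr]
  rw [this]
  refine IsClosed.inter ?_ (IsClosed.inter ?_ (IsClosed.inter ?_ ?_))
  · exact isClosed_iInter fun g => isClosed_iInter fun n => isClosed_imp _ _
  · exact isClosed_iInter fun f => isClosed_iInter fun g => isClosed_iInter fun n =>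
      isClosed_imp _ _
  · exact isClosed_iInter fun f => isClosed_iInter fun g => isClosed_iInter fun n =>
      isClosed_imp _ _
  · exact isClosed_iInter fun g => isClosed_iInter fun n => isClosed_imp _ _

theorem thr_le {z : Γ} {N : Γ → ℕ} {s : Γ × ℤ → Bool} (hs : s ∈ thr z N) (g : Γ) (n m : ℤ)
    (h : m ≤ n) (hn : s (g, n) = true) : s (g, m) = true := by
  obtain ⟨k, rfl⟩ := Int.le.dest h
  induction k with
  | zero => simpa using hn
  | succ k ih =>
    exact ih (by omega) (hs.1 _ _ (by simpa [add_assoc] using hn))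

theorem thr_pow {z : Γ} {N : Γ → ℕ} {s : Γ × ℤ → Bool} (hs : s ∈ thr z N) (g : Γ) (n : ℤ)
    (k : ℕ) (hn : s (g, n) = true) : s (g * z ^ k, n + k) = true := by
  induction k with
  | zero => simpa using hn
  | succ k ih =>
    have := hs.2.2.2 _ _ ih
    rw [pow_succ, ← mul_assoc]
    simpa [add_assoc] using this

theorem thr_move {z : Γ} {N : Γ → ℕ} {s : Γ × ℤ → Bool} (hs : s ∈ thr z N) (g g' : Γ) (n : ℤ)
    (k : ℕ) (hn : s (g, n) = true) : s (g' * z ^ k, n + k - N (g' * g⁻¹)) = true := by
  have h := hs.2.1 (g' * g⁻¹) _ _ (thr_pow hs g n k hn)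
  simpa [mul_assoc] using h

/-- Right translation by `γ` on the space of threshold functions. -/
def sh (z : Γ) (hz : ∀ g, Commute z g) (N : Γ → ℕ) (γ : Γ) (s : thr z N) : thr z N :=
  ⟨fun p => s.1 (p.1 * γ, p.2), by
    refine ⟨fun g n => s.2.1 _ _, fun f g n => ?_, fun f g n => ?_, fun g n => ?_⟩
    · simpa [mul_assoc] using s.2.2.1 f (g * γ) n
    · simpa [mul_assoc] using s.2.2.2.1 f (g * γ) n
    · have := s.2.2.2.2 (g * γ) n
      rwa [mul_assoc, ← (hz γ).eq, ← mul_assoc] at this⟩

theorem continuous_sh (z : Γ) (hz : ∀ g, Commute z g) (N : Γ → ℕ) (γ : Γ) :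
    Continuous (sh z hz N γ) := by
  have h : Continuous fun s : thr z N => fun p : Γ × ℤ => s.1 (p.1 * γ, p.2) := by
    refine continuous_pi fun p => ?_
    exact (continuous_apply (p.1 * γ, p.2)).comp continuous_subtype_val
  exact h.subtype_mk _

/-- Right translation by `γ` as a homeomorphism of the space of threshold functions. -/
def act (z : Γ) (hz : ∀ g, Commute z g) (N : Γ → ℕ) (γ : Γ) : thr z N ≃ₜ thr z N where
  toFun := sh z hz N γ
  invFun := sh z hz N γ⁻¹
  left_inv s := by ext p; simp [sh]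
  right_inv s := by ext p; simp [sh]
  continuous_toFun := continuous_sh z hz N γ
  continuous_invFun := continuous_sh z hz N γ⁻¹

@[simp] theorem act_apply (z : Γ) (hz : ∀ g, Commute z g) (N : Γ → ℕ) (γ : Γ) (s : thr z N)
    (p : Γ × ℤ) : (act z hz N γ s).1 p = s.1 (p.1 * γ, p.2) := rfl

/-- The action of `Γ` on the space of threshold functions. -/
def actHom (z : Γ) (hz : ∀ g, Commute z g) (N : Γ → ℕ) : Γ →* (thr z N ≃ₜ thr z N) where
  toFun := act z hz N
  map_one' := by
    ext s p
    simp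
  map_mul' γ δ := by
    ext s p
    simp [mul_assoc]

theorem actHom_apply (z : Γ) (hz : ∀ g, Commute z g) (N : Γ → ℕ) (γ : Γ) (s : thr z N)
    (p : Γ × ℤ) : (actHom z hz N γ s).1 p = s.1 (p.1 * γ, p.2) := rfl

/-- The threshold function constant `b`. -/
def cst (z : Γ) (N : Γ → ℕ) (b : Bool) : thr z N :=
  ⟨fun _ => b, fun _ _ h => h, fun _ _ _ h => h, fun _ _ _ h => h, fun _ _ h => h⟩

/-- Neighbourhoods of the constant threshold functions. -/
theorem exists_finset_of_mem_nhds (z : Γ) (N : Γ → ℕ) (b : Bool) {A : Set (thr z N)}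
    (hA : A ∈ 𝓝 (cst z N b)) :
    ∃ F : Finset (Γ × ℤ), ∀ s : thr z N, (∀ p ∈ F, s.1 p = b) → s ∈ A := by
  rw [nhds_subtype_eq_comap, mem_comap] at hA
  obtain ⟨T, hT, hTA⟩ := hA
  rw [nhds_pi, Filter.mem_pi] at hT
  obtain ⟨I, hI, t, ht, hsub⟩ := hT
  refine ⟨hI.toFinset, fun s hs => hTA (hsub fun i hi => ?_)⟩
  have h1 : b ∈ t i := mem_of_mem_nhds (ht i)
  rw [hs i (by simpa using hi)]
  exact h1

theorem hyperbolic_act (z : Γ) (hz : ∀ g, Commute z g) (N : Γ → ℕ) :
    IsHyperbolicAt (actHom z hz N z) (cst z N false) (cst z N true) := by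
  refine ⟨?_, ?_, ?_⟩
  · intro h
    have := congrArg (fun s => s.1 ((1 : Γ), (0 : ℤ))) h
    simp [cst] at this
  · intro s
    constructor
    · intro hs
      have hfix : ∀ g n, s.1 (g * z, n) = s.1 (g, n) := fun g n =>
        congrArg (fun s : thr z N => s.1 (g, n)) hs
      by_cases h : ∃ g n, s.1 (g, n) = true
      · right
        obtain ⟨g, n, hgn⟩ := h
        have hup : ∀ k : ℕ, s.1 (g, n + k) = true := by
          intro k
          induction k with
          | zero => simpa using hgn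
          | succ k ih =>
            have := s.2.2.2.2 _ _ ih
            rw [hfix] at this
            simpa [add_assoc] using this
        ext ⟨g', m⟩
        change s.1 (g', m) = true
        have h1 := hup (m - n + N (g' * g⁻¹)).toNat
        have h2 := s.2.2.1 (g' * g⁻¹) _ _ h1
        rw [inv_mul_cancel_right] at h2
        refine thr_le s.2 _ _ _ ?_ h2
        have := Int.self_le_toNat (m - n + N (g' * g⁻¹))
        omega
      · left
        push Not at h
        ext ⟨g', m⟩
        change s.1 (g', m) = false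
        simpa using h g' m
    · rintro (rfl | rfl) <;> rfl
  · intro A hA B hB
    obtain ⟨F, hF⟩ := exists_finset_of_mem_nhds z N false hA
    obtain ⟨G, hG⟩ := exists_finset_of_mem_nhds z N true hB
    obtain ⟨M, hM⟩ : ∃ M : ℕ, ∀ p ∈ F, ∀ q ∈ G, q.2 - p.2 + N (q.1 * p.1⁻¹) ≤ M := by
      refine ⟨∑ p ∈ F, ∑ q ∈ G, (q.2 - p.2 + N (q.1 * p.1⁻¹)).toNat, fun p hp q hq => ?_⟩
      have h1 : (q.2 - p.2 + N (q.1 * p.1⁻¹)).toNat ≤
          ∑ q ∈ G, (q.2 - p.2 + N (q.1 * p.1⁻¹)).toNat :=
        Finset.single_le_sum (f := fun q : Γ × ℤ => (q.2 - p.2 + N (q.1 * p.1⁻¹)).toNat)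
          (fun _ _ => Nat.zero_le _) hq
      have h2 : ∑ q ∈ G, (q.2 - p.2 + N (q.1 * p.1⁻¹)).toNat ≤
          ∑ p ∈ F, ∑ q ∈ G, (q.2 - p.2 + N (q.1 * p.1⁻¹)).toNat :=
        Finset.single_le_sum
          (f := fun p : Γ × ℤ => ∑ q ∈ G, (q.2 - p.2 + N (q.1 * p.1⁻¹)).toNat)
          (fun _ _ => Nat.zero_le _) hp
      have h3 := Int.self_le_toNat (q.2 - p.2 + N (q.1 * p.1⁻¹))
      exact h3.trans (by exact_mod_cast h1.trans h2)
    refine ⟨M + 1, Nat.succ_pos _, fun n hn => ⟨?_, ?_⟩⟩
    · rintro _ ⟨s, hs, rfl⟩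
      apply hG
      intro q hq
      have hex : ∃ p ∈ F, s.1 p = true := by
        by_contra hcon
        push Not at hcon
        exact hs (hF s fun p hp => by simpa using hcon p hp)
      obtain ⟨p, hp, hsp⟩ := hex
      rw [← map_pow, actHom_apply]
      have h1 := thr_move s.2 p.1 q.1 p.2 n hsp
      refine thr_le s.2 _ _ _ ?_ h1
      have := hM p hp q hq
      omega
    · rintro _ ⟨s, hs, rfl⟩
      apply hF
      intro p hp
      have hex : ∃ q ∈ G, s.1 q = false := by
        by_contra hcon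
        push Not at hcon
        exact hs (hG s fun q hq => by simpa using hcon q hq)
      obtain ⟨q, hq, hsq⟩ := hex
      rw [← map_inv, ← map_pow, actHom_apply]
      by_contra hcon
      rw [Bool.not_eq_false] at hcon
      have h1 := thr_move s.2 (p.1 * z⁻¹ ^ n) (q.1 * z⁻¹ ^ n) p.2 n hcon
      have h2 : q.1 * z⁻¹ ^ n * z ^ n = q.1 := by simp [mul_assoc]
      have h3 : q.1 * z⁻¹ ^ n * (p.1 * z⁻¹ ^ n)⁻¹ = q.1 * p.1⁻¹ := by group
      rw [h2, h3] at h1
      have h4 : s.1 (q.1, q.2) = true := by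
        refine thr_le s.2 _ _ _ ?_ h1
        have := hM p hp q hq
        omega
      rw [show (q.1, q.2) = q from rfl, hsq] at h4
      exact absurd h4 (by simp)

/-- The main existence statement. -/
theorem actsHyperbolically_of_height [Countable Γ] (z : Γ) (hz : ∀ g, Commute z g) (N : Γ → ℕ)
    (u : Γ → ℤ) (h1 : ∀ f g, |u (f * g) - u g| ≤ N f) (h2 : ∀ g, u g + 1 ≤ u (g * z)) :
    ActsHyperbolically z := by
  refine ⟨thr z N, inferInstance, isCompact_iff_compactSpace.1 (isClosed_thr z N).isCompact,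
    inferInstance, actHom z hz N, ?_, ⟨_, _, hyperbolic_act z hz N⟩⟩
  have hu : (fun p : Γ × ℤ => decide (p.2 ≤ u p.1)) ∈ thr z N := by
    refine ⟨fun g n h => ?_, fun f g n h => ?_, fun f g n h => ?_, fun g n h => ?_⟩ <;>
      simp only [decide_eq_true_eq] at h ⊢
    · omega
    · have := abs_le.1 (h1 f g); omega
    · have := abs_le.1 (h1 f g); omega
    · have := h2 g; omega
  have hlow : ∀ k : ℕ, u (z ^ k) + 1 ≤ u (z ^ (k + 1)) := fun k => by
    rw [pow_succ]; exact h2 _
  have hmono : StrictMono fun k : ℕ => u (z ^ k) :=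
    strictMono_nat_of_lt_succ fun k => by have := hlow k; omega
  have hinj : Function.Injective fun k : ℕ =>
      actHom z hz N (z ^ k) ⟨fun p : Γ × ℤ => decide (p.2 ≤ u p.1), hu⟩ := by
    intro k l hkl
    by_contra hne
    rcases lt_or_gt_of_ne hne with h | h
    · have h3 := congrArg (fun s : thr z N => s.1 (1, u (z ^ l))) hkl
      simp only [actHom_apply, one_mul] at h3
      have h4 := hmono h
      simp only at h4
      simp at h3
      omega
    · have h3 := congrArg (fun s : thr z N => s.1 (1, u (z ^ k))) hkl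
      simp only [actHom_apply, one_mul] at h3
      have h4 := hmono h
      simp only at h4
      simp at h3
      omega
  have : Infinite (thr z N) := Infinite.of_injective _ hinj
  rw [ENat.card_eq_top_of_infinite]
  exact ENat.natCast_lt_top 3

end Pool.Agent.Work.MP_34eaa2_al
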